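import Pool.Agent.Helper52.SB.SMain

/-!
# The optimal bound for one hundred percent of the integral maps: the theorem
-/

set_option autoImplicit false

namespace Pool.Agent.Helper52.SB

open MvPolynomial
open Pool.Agent.Helper86.MQ (pm)
open Pool.Agent.Helper26.DV
open Pool.Agent.Helper52.DV

variable {m : ℕ} {w : Fin (m + 1) → ℕ}

/-- **Main theorem for arrays.** -/
theorem s_arrays (hw : ∀ i : Fin m, 1 ≤ w i.castSucc)
    (hw' : ∀ i : Fin m, w i.castSucc < w (Fin.last m)) (hd : 2 ≤ w (Fin.last m)) (D : ℕ)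
    (ε : ℝ) (hε : 0 < ε) :
    ∃ κ : ℝ, 0 < κ ∧ ∃ K : ℕ, ∀ B : ℕ, K ≤ B → ∀ (S : Finset (Fin (m + 1) → ℂ)) (A : ℝ),
      1 ≤ A → (∀ α ∈ S, ∀ i, ‖α i‖ ≤ A) →
      (S.card : ℝ) ^ w (Fin.last m) * A ^ (w (Fin.last m) * (w (Fin.last m) + 1)) ≤ κ * B →
      ∃ T : Finset (VIdx m w → ℤ), T ⊆ boxZ (VIdx m w) B ∧
        (1 - ε) * (boxZ (VIdx m w) B).card ≤ T.card ∧
        ∀ c ∈ T, ∀ α ∈ S, ∀ F : MvPolynomial (Fin (m + 1)) ℂ, F ≠ 0 →
          {n | eval ((pm (cP c))^[n] α) F = 0}.Finite ∧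
          (F.totalDegree ≤ D →
            {n | eval ((pm (cP c))^[n] α) F = 0}.encard < ((m + 1 + D).choose (m + 1) : ℕ)) := by
  classical
  have h0 : 1 ≤ w (Fin.last m) := by omega
  obtain ⟨L, hL0, hcore⟩ := core' hw hw' h0 D
  have hsv : ∀ l : MvPolynomial (VIdx m w) ℤ, ∃ C : ℕ, l ∈ L →
      ∀ T : (VIdx m w → ℤ) → VIdx m w → ℂ, Tri rk T → ∀ (B : ℕ),
      (((boxZ (VIdx m w) B).filter fun c => ‖aeval (T c) l‖ < 1).card : ℝ) * (2 * B + 1) ≤
        C * (boxZ (VIdx m w) B).card := by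
    intro l
    by_cases hl : l ∈ L
    · obtain ⟨C, hC⟩ := small_values rk l.vars.card l (hL0 l hl) le_rfl
      exact ⟨C, fun _ T hT B => hC T hT B⟩
    · exact ⟨0, fun h => absurd h hl⟩
  choose Cf hCf using hsv
  set CL : ℕ := ∑ l ∈ L, Cf l with hCL
  set d := w (Fin.last m) with hddef
  set N := Fintype.card (VIdx m w) with hN
  set n : ℝ := (N : ℝ) with hn
  have hn1 : 1 ≤ n := by
    rw [hn]
    exact_mod_cast Fintype.card_pos_iff.2 ⟨vsp m w⟩
  have hn2 : n ≤ n ^ 2 := le_self_pow₀ hn1 (by norm_num)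
  have hn0 : 0 < n := by linarith
  have hd0 : (0 : ℝ) < d := by exact_mod_cast (by omega : 0 < d)
  set ε1 := ε / 8 with hε1
  have hε10 : 0 < ε1 := by positivity
  set lam : ℝ := 1 + 2 * (n / ε1) with hlam
  set R₀ : ℝ := lam + 4 + 2 * lam * (n / ε1) with hR₀
  set Λ1 : ℝ := 1 + 4 * n ^ 2 / ε1 with hΛ1
  set Λ2 : ℝ := Λ1 + 4 + Λ1 * (4 * n ^ 2 / ε1) with hΛ2
  have hΛ10 : 0 < Λ1 := by positivity
  set DR := (GRZ hw h0).totalDegree with hDR
  set κ1 : ℝ := ε / (8 * d) with hκ1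
  have hκ10 : 0 < κ1 := by positivity
  set κ3 : ℝ := ε1 * κ1 ^ d / (2 * Λ1 * (2 * n ^ 2) ^ d * 2 ^ (d * (d + 1))) with hκ3
  have hκ30 : 0 < κ3 := by positivity
  set κ4 : ℝ := ε / (8 * (CL + 1)) with hκ4
  have hκ40 : 0 < κ4 := by positivity
  obtain ⟨K, hK⟩ := exists_nat_ge
    (max R₀ (max Λ2 (max (2 / ε1) (max 1 ((2 + 2 * (DR : ℝ)) / ε)))))
  refine ⟨min κ1 (min κ3 κ4), lt_min hκ10 (lt_min hκ30 hκ40), K, fun B hB S A hA hS hSA => ?_⟩
  have hKB : (K : ℝ) ≤ B := by exact_mod_cast hB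
  have hKB' := hK.trans hKB
  have hBR : R₀ ≤ B := (le_max_left _ _).trans hKB'
  have hBΛ : Λ2 ≤ B := (le_max_left _ _).trans ((le_max_right _ _).trans hKB')
  have hBε : 2 / ε1 ≤ B :=
    (le_max_left _ _).trans ((le_max_right _ _).trans ((le_max_right _ _).trans hKB'))
  have hB1 : (1 : ℝ) ≤ B := (le_max_left _ _).trans ((le_max_right _ _).trans
    ((le_max_right _ _).trans ((le_max_right _ _).trans hKB')))
  have hB1' : 1 ≤ B := by exact_mod_cast hB1
  have hBD : (2 + 2 * (DR : ℝ)) / ε ≤ B := (le_max_right _ _).trans ((le_max_right _ _).trans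
    ((le_max_right _ _).trans ((le_max_right _ _).trans hKB')))
  have hB0 : (0 : ℝ) < B := by linarith
  rw [div_le_iff₀ hε] at hBD
  rw [div_le_iff₀ hε10] at hBε
  rcases S.eq_empty_or_nonempty with rfl | hSne
  · refine ⟨boxZ (VIdx m w) B, subset_rfl, ?_, fun c _ α hα => absurd hα (Finset.notMem_empty _)⟩
    have h1 : (0 : ℝ) ≤ (boxZ (VIdx m w) B).card := Nat.cast_nonneg _
    nlinarith
  set q := S.card with hq
  have hq1 : 1 ≤ q := Finset.card_pos.2 hSne
  have hq1' : (1 : ℝ) ≤ q := by exact_mod_cast hq1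
  have hq0 : (0 : ℝ) < q := by linarith
  set ρ : ℝ := κ1 * B / q with hρ
  have hρ0 : 0 ≤ ρ := by positivity
  have hqA : (q : ℝ) ≤ q ^ d * A ^ (d * (d + 1)) := by
    calc (q : ℝ) ≤ q ^ d := le_self_pow₀ hq1' (by omega)
      _ ≤ q ^ d * A ^ (d * (d + 1)) := le_mul_of_one_le_right (by positivity) (one_le_pow₀ hA)
  have hqB : (q : ℝ) ≤ κ1 * B :=
    hqA.trans (hSA.trans (mul_le_mul_of_nonneg_right (min_le_left _ _) (by positivity)))
  have hS3 : (q : ℝ) ^ d * A ^ (d * (d + 1)) ≤ κ3 * B := hSA.trans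
    (mul_le_mul_of_nonneg_right ((min_le_right _ _).trans (min_le_left _ _)) (by positivity))
  have hqB4 : (q : ℝ) ≤ κ4 * B := hqA.trans (hSA.trans
    (mul_le_mul_of_nonneg_right ((min_le_right _ _).trans (min_le_right _ _)) (by positivity)))
  set t : ℝ := (1 + A) ^ d with ht
  have ht1 : 1 ≤ t := one_le_pow₀ (by linarith)
  set M : ℝ := 2 * n ^ 2 * B * t with hM
  have hQ : 2 * Λ1 * t * M ^ d ≤ ε1 * B * ρ ^ d := by
    have h1 : ρ ^ d = κ1 ^ d * (B : ℝ) ^ d / q ^ d := by rw [hρ, div_pow, mul_pow]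
    have h2 : t ^ (d + 1) ≤ 2 ^ (d * (d + 1)) * A ^ (d * (d + 1)) := by
      rw [ht, ← pow_mul, ← mul_pow]
      exact pow_le_pow_left₀ (by linarith) (by linarith) _
    rw [h1, ← mul_div_assoc, le_div_iff₀ (by positivity)]
    calc 2 * Λ1 * t * M ^ d * q ^ d
        = 2 * Λ1 * (2 * n ^ 2) ^ d * B ^ d * q ^ d * t ^ (d + 1) := by
          rw [hM, mul_pow, mul_pow, pow_succ]
          ring
      _ ≤ 2 * Λ1 * (2 * n ^ 2) ^ d * B ^ d * q ^ d *
          (2 ^ (d * (d + 1)) * A ^ (d * (d + 1))) := mul_le_mul_of_nonneg_left h2 (by positivity)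
      _ = 2 * Λ1 * (2 * n ^ 2) ^ d * 2 ^ (d * (d + 1)) * B ^ d *
          (q ^ d * A ^ (d * (d + 1))) := by ring
      _ ≤ 2 * Λ1 * (2 * n ^ 2) ^ d * 2 ^ (d * (d + 1)) * B ^ d * (κ3 * B) :=
          mul_le_mul_of_nonneg_left hS3 (by positivity)
      _ = ε1 * B * (κ1 ^ d * B ^ d) := by
          rw [hκ3]
          field_simp
  have hρc : lam * (n * B) ^ d * A ^ (d * (d - 1)) ≤ ε1 * B * ρ ^ d := by
    refine le_trans ?_ hQ
    have h1 : lam ≤ Λ1 := by
      have h2 : 2 * (n / ε1) ≤ 4 * n ^ 2 / ε1 := by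
        rw [← mul_div_assoc]
        refine div_le_div_of_nonneg_right ?_ hε10.le
        linarith
      rw [hlam, hΛ1]
      linarith
    have h2 : (n * B) ^ d * A ^ (d * (d - 1)) ≤ M ^ d := by
      have h3 : A ^ (d * (d - 1)) ≤ t ^ d := by
        rw [ht, ← pow_mul]
        calc A ^ (d * (d - 1)) ≤ A ^ (d * d) :=
              pow_le_pow_right₀ hA (Nat.mul_le_mul_left _ (Nat.sub_le _ _))
          _ ≤ (1 + A) ^ (d * d) := pow_le_pow_left₀ (by linarith) (by linarith) _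
      calc (n * B) ^ d * A ^ (d * (d - 1)) ≤ (n * B) ^ d * t ^ d :=
            mul_le_mul_of_nonneg_left h3 (by positivity)
        _ = (n * B * t) ^ d := (mul_pow _ _ _).symm
        _ ≤ M ^ d := by
            refine pow_le_pow_left₀ (by positivity) ?_ d
            rw [hM]
            have h4 : 0 ≤ (B : ℝ) * t := by positivity
            nlinarith
    have h3 : 0 ≤ (n * B) ^ d * A ^ (d * (d - 1)) := by positivity
    calc lam * (n * B) ^ d * A ^ (d * (d - 1)) = lam * ((n * B) ^ d * A ^ (d * (d - 1))) := by ring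
      _ ≤ Λ1 * M ^ d := mul_le_mul h1 h2 h3 hΛ10.le
      _ = Λ1 * M ^ d * 1 := (mul_one _).symm
      _ ≤ Λ1 * M ^ d * (2 * t) := mul_le_mul_of_nonneg_left (by linarith) (by positivity)
      _ = 2 * Λ1 * t * M ^ d := by ring
  -- the bad arrays
  set bx := boxZ (VIdx m w) B with hbx
  set bad1 := bx.filter fun c => |(c (vsp m w) : ℝ)| < ε1 * B ∨
      aeval c (GRZ hw h0) = 0 ∨ ∃ α ∈ S, ‖(pm (cP c))^[2] α (Fin.last m)‖ <
          ‖(c (vsp m w) : ℂ)‖ * ρ ^ w (Fin.last m) with hbad1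
  set bad2 := S.biUnion fun α => L.biUnion fun l =>
    bx.filter fun c => ‖aeval (conj α fun k => (c k : ℂ)) l‖ < 1 with hbad2
  have hfew := few_bad hw hw' hd h0 hε10 hρ0 hB1' S
  rw [← hbx, ← hbad1] at hfew
  have hfew2 : (bad2.card : ℝ) * (2 * B + 1) ≤ q * CL * bx.card := by
    have h1 : bad2.card ≤ ∑ α ∈ S, ∑ l ∈ L,
        (bx.filter fun c => ‖aeval (conj α fun k => (c k : ℂ)) l‖ < 1).card := by
      refine Finset.card_biUnion_le.trans (Finset.sum_le_sum fun α _ => ?_)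
      exact Finset.card_biUnion_le
    have h2 : (bad2.card : ℝ) ≤ ∑ α ∈ S, ∑ l ∈ L,
        ((bx.filter fun c => ‖aeval (conj α fun k => (c k : ℂ)) l‖ < 1).card : ℝ) := by
      exact_mod_cast h1
    refine (mul_le_mul_of_nonneg_right h2 (by positivity)).trans ?_
    rw [Finset.sum_mul]
    calc ∑ α ∈ S, (∑ l ∈ L,
          ((bx.filter fun c => ‖aeval (conj α fun k => (c k : ℂ)) l‖ < 1).card : ℝ)) *
          (2 * B + 1) ≤ ∑ α ∈ S, (CL : ℝ) * bx.card := by
          refine Finset.sum_le_sum fun α _ => ?_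
          rw [Finset.sum_mul, hCL]
          push_cast
          rw [Finset.sum_mul]
          refine Finset.sum_le_sum fun l hl => ?_
          exact hCf l hl (fun c => conj α fun k => (c k : ℂ)) (tri_conj α) B
      _ = q * CL * bx.card := by
          rw [Finset.sum_const, nsmul_eq_mul, ← hq]
          ring
  refine ⟨bx \ (bad1 ∪ bad2), Finset.sdiff_subset, ?_, ?_⟩
  · have hsub : bad1 ∪ bad2 ⊆ bx := by
      refine Finset.union_subset (Finset.filter_subset _ _) ?_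
      refine Finset.biUnion_subset.2 fun α _ => Finset.biUnion_subset.2 fun l _ => ?_
      exact Finset.filter_subset _ _
    have h1 : ((bx \ (bad1 ∪ bad2)).card : ℝ) = bx.card - (bad1 ∪ bad2).card := by
      rw [Finset.card_sdiff_of_subset hsub, Nat.cast_sub (Finset.card_le_card hsub)]
    have h2 : 2 * (ε1 * B) + 1 + (DR : ℝ) + q * (d * (2 * ρ + 1)) + q * CL ≤
        ε * (2 * B + 1) := by
      have h3 : (q : ℝ) * (d * (2 * ρ + 1)) = ε / 4 * B + q * d := by
        rw [hρ, hκ1]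
        field_simp
        ring
      have h4 : (q : ℝ) * d ≤ ε / 8 * B := by
        calc (q : ℝ) * d ≤ κ1 * B * d := mul_le_mul_of_nonneg_right hqB hd0.le
          _ = ε / 8 * B := by
              rw [hκ1]
              field_simp
      have h5 : (q : ℝ) * CL ≤ ε / 8 * B := by
        have h6 : (0 : ℝ) ≤ CL := Nat.cast_nonneg _
        calc (q : ℝ) * CL ≤ κ4 * B * (CL + 1) :=
              mul_le_mul hqB4 (by linarith) h6 (by positivity)
          _ = ε / 8 * B := by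
              rw [hκ4]
              field_simp
      have hεB : 0 ≤ ε * B := by positivity
      rw [h3, hε1]
      nlinarith
    have h3 : ((bad1 ∪ bad2).card : ℝ) ≤ ε * bx.card := by
      have h4 : (0 : ℝ) < 2 * B + 1 := by positivity
      have h5 : ((bad1 ∪ bad2).card : ℝ) ≤ bad1.card + bad2.card := by
        exact_mod_cast Finset.card_union_le _ _
      have h6 : ((bad1 ∪ bad2).card : ℝ) * (2 * B + 1) ≤ ε * bx.card * (2 * B + 1) := by
        calc ((bad1 ∪ bad2).card : ℝ) * (2 * B + 1)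
            ≤ (bad1.card + bad2.card) * (2 * B + 1) := mul_le_mul_of_nonneg_right h5 h4.le
          _ = bad1.card * (2 * B + 1) + bad2.card * (2 * B + 1) := by ring
          _ ≤ (2 * (ε1 * B) + 1 + (DR : ℝ) + q * (d * (2 * ρ + 1))) * bx.card +
              q * CL * bx.card := add_le_add hfew hfew2
          _ = (2 * (ε1 * B) + 1 + (DR : ℝ) + q * (d * (2 * ρ + 1)) + q * CL) * bx.card := by
              ring
          _ ≤ ε * (2 * B + 1) * bx.card := mul_le_mul_of_nonneg_right h2 (Nat.cast_nonneg _)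
          _ = ε * bx.card * (2 * B + 1) := by ring
      exact le_of_mul_le_mul_right h6 h4
    rw [h1]
    linarith
  · intro c hc α hα F hF
    rw [Finset.mem_sdiff, Finset.mem_union, not_or] at hc
    obtain ⟨hc, h1, h2⟩ := hc
    rw [hbad1, Finset.mem_filter, not_and_or] at h1
    have h3 := h1.resolve_left fun h => h hc
    push Not at h3
    refine ⟨good hw hw' hd h0 hε10 hB1' hlam hR₀ hBR hA hρc hρ0 hc (not_lt.2 h3.1) h3.2.1
      (hS α hα) (not_lt.2 (h3.2.2 α hα)) F hF, fun hFD => ?_⟩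
    have hcB : ∀ k, ‖((c k : ℤ) : ℂ)‖ ≤ (B : ℝ) := by
      intro k
      have h4 := Finset.mem_Icc.1 (Fintype.mem_piFinset.1 hc k)
      rw [Complex.norm_intCast, abs_le]
      constructor
      · exact_mod_cast h4.1
      · exact_mod_cast h4.2
    have horc := orc_conj (w := w) hw' hd (n := n) (ε1 := ε1) (B := (B : ℝ)) (A := A) (ρ := ρ)
      (t := t) (M := M) (Λ1 := Λ1) (Λ2 := Λ2) rfl hε10 hB1 (by linarith) hA ht hM hΛ1 hΛ2 hBΛ
      hQ hρ0 (c := fun k => ((c k : ℤ) : ℂ)) hcB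
      (by rw [Complex.norm_intCast]; exact h3.1) (hS α hα) (h3.2.2 α hα)
    have hF' : trl α F ≠ 0 := by
      intro h4
      apply hF
      refine MvPolynomial.funext fun y => ?_
      have h5 := eval_trl α (y - α) F
      rw [h4, map_zero, sub_add_cancel] at h5
      rw [← h5, map_zero]
    have h4 := hcore (2 * M) (conj α fun k => ((c k : ℤ) : ℂ)) _ horc rfl (fun l hl => ?_)
      (trl α F) hF' ((deg_trl α F).trans hFD)
    · rw [nm_eq] at h4
      have h5 : {n | eval ((pm (vP (conj α fun k => ((c k : ℤ) : ℂ))))^[n] 0) (trl α F) = 0} =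
          {n | eval ((pm (cP c))^[n] α) F = 0} := by
        ext n
        simp only [Set.mem_ofPred_eq]
        rw [eval_trl, iter_conj, sub_add_cancel]
        rfl
      rw [h5] at h4
      exact h4
    · have h5 : ¬ ‖aeval (conj α fun k => ((c k : ℤ) : ℂ)) l‖ < 1 := by
        intro h6
        apply h2
        rw [hbad2, Finset.mem_biUnion]
        refine ⟨α, hα, ?_⟩
        rw [Finset.mem_biUnion]
        exact ⟨l, hl, Finset.mem_filter.2 ⟨hc, h6⟩⟩
      have h6 : 1 ≤ 2 * M := by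
        rw [hM]
        have h7 : 1 ≤ (B : ℝ) * t := one_le_mul_of_one_le_of_one_le hB1 ht1
        have h8 : 1 ≤ n ^ 2 := one_le_pow₀ hn1
        nlinarith
      exact one_le_mul_of_one_le_of_one_le (not_lt.1 h5) h6

/-- **Main theorem.** -/
theorem s_main (hw : ∀ i : Fin m, 1 ≤ w i.castSucc)
    (hw' : ∀ i : Fin m, w i.castSucc < w (Fin.last m)) (hd : 2 ≤ w (Fin.last m)) (D : ℕ)
    (ε : ℝ) (hε : 0 < ε) :
    ∃ κ : ℝ, 0 < κ ∧ ∃ K : ℕ, ∀ B : ℕ, K ≤ B → (zbox m w B).Finite ∧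
      ∀ (S : Finset (Fin (m + 1) → ℂ)) (A : ℝ), 1 ≤ A → (∀ α ∈ S, ∀ i, ‖α i‖ ≤ A) →
      (S.card : ℝ) ^ w (Fin.last m) * A ^ (w (Fin.last m) * (w (Fin.last m) + 1)) ≤ κ * B →
      (1 - ε) * ((zbox m w B).ncard : ℝ) ≤
        (({Φ ∈ zbox m w B | ∀ α ∈ S, ∀ F : MvPolynomial (Fin (m + 1)) ℂ, F ≠ 0 →
          {n | eval ((pm fun i => MvPolynomial.map (Int.castRingHom ℂ) (Φ i))^[n] α) F =
            0}.Finite ∧
          (F.totalDegree ≤ D →
            {n | eval ((pm fun i => MvPolynomial.map (Int.castRingHom ℂ) (Φ i))^[n] α) F =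
              0}.encard < ((m + 1 + D).choose (m + 1) : ℕ))}).ncard : ℝ) := by
  classical
  obtain ⟨κ, hκ, K, hK⟩ := s_arrays hw hw' hd D ε hε
  refine ⟨κ, hκ, K, fun B hB => ?_⟩
  have hfin : (zbox m w B).Finite := by
    rw [zbox_eq]
    exact (Finset.finite_toSet _).image _
  refine ⟨hfin, fun S A hA hS hSA => ?_⟩
  obtain ⟨T, hT, hcard, hgood⟩ := hK B hB S A hA hS hSA
  have h1 : (zbox m w B).ncard = (boxZ (VIdx m w) B).card := by
    rw [zbox_eq, Set.ncard_image_of_injective _ vP_injective, Set.ncard_coe_finset]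
  rw [h1]
  refine hcard.trans ?_
  have h2 : (vP '' (T : Set (VIdx m w → ℤ))).ncard = T.card := by
    rw [Set.ncard_image_of_injective _ vP_injective, Set.ncard_coe_finset]
  rw [← h2]
  refine Nat.cast_le.2 (Set.ncard_le_ncard ?_ (hfin.subset fun Φ hΦ => hΦ.1))
  rintro Φ ⟨c, hc, rfl⟩
  refine ⟨?_, fun α hα F hF => ?_⟩
  · rw [zbox_eq]
    exact ⟨c, hT hc, rfl⟩
  · rw [map_vP]
    exact hgood c hc α hα F hF

end Pool.Agent.Helper52.SB
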