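import Pool.Agent.Helper87.UN.Blocks

/-!
# Polynomials in the coefficients and in several blocks of variables
-/

set_option autoImplicit false

namespace Pool.Agent.Helper52.SB

open MvPolynomial
open Pool.Agent.Helper87.UN (coeff_mem_of)

variable {J ι : Type*}

/-- polynomials over `ℤ` in the variables `J` and in the blocks of variables with numbers in `ℕ` -/
abbrev RC (J ι : Type*) : Type _ := MvPolynomial (J ⊕ (ℕ × ι)) ℤ

/-- the variables `J` and those of the blocks `1, …, r` -/
def SC (J ι : Type*) (r : ℕ) : Set (J ⊕ (ℕ × ι)) :=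
  {v | ∀ q : ℕ × ι, v = Sum.inr q → 1 ≤ q.1 ∧ q.1 ≤ r}

theorem inl_mem_SC (r : ℕ) (j : J) : (Sum.inl j : J ⊕ (ℕ × ι)) ∈ SC J ι r := by
  intro q h
  exact absurd h (by simp)

theorem inr_mem_SC {r : ℕ} {q : ℕ × ι} (h1 : 1 ≤ q.1) (h2 : q.1 ≤ r) :
    (Sum.inr q : J ⊕ (ℕ × ι)) ∈ SC J ι r := by
  intro q' h
  rw [← Sum.inr.inj h]
  exact ⟨h1, h2⟩

/-- a polynomial as a polynomial in the block `r` -/
noncomputable def spl (r : ℕ) : RC J ι →ₐ[ℤ] MvPolynomial ι (RC J ι) :=
  aeval (Sum.elim (fun j => C (X (Sum.inl j)))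
    fun q => if q.1 = r then X q.2 else C (X (Sum.inr q)))

theorem spl_inl (r : ℕ) (j : J) :
    spl r (X (Sum.inl j) : RC J ι) = C (X (Sum.inl j)) := by
  rw [spl, aeval_X, Sum.elim_inl]

theorem spl_inr (r : ℕ) (q : ℕ × ι) :
    spl r (X (Sum.inr q) : RC J ι) = if q.1 = r then X q.2 else C (X (Sum.inr q)) := by
  rw [spl, aeval_X, Sum.elim_inr]

/-- evaluation of the block `r` at the variables -/
noncomputable def bck (r : ℕ) : MvPolynomial ι (RC J ι) →+* RC J ι :=
  eval₂Hom (RingHom.id _) fun i => X (Sum.inr (r, i))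

theorem bck_spl (r : ℕ) (H : RC J ι) : bck r (spl r H) = H := by
  have h : (bck r).comp (spl r : RC J ι →ₐ[ℤ] MvPolynomial ι (RC J ι)).toRingHom =
      RingHom.id (RC J ι) := by
    refine MvPolynomial.ringHom_ext' (RingHom.ext_int _ _) fun v => ?_
    change bck r (spl r (X v)) = X v
    rcases v with j | q
    · rw [spl_inl, bck, coe_eval₂Hom, eval₂_C]
      rfl
    · rw [spl_inr]
      split_ifs with h1
      · rw [bck, coe_eval₂Hom, eval₂_X, ← h1]
      · rw [bck, coe_eval₂Hom, eval₂_C]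
        rfl
  exact RingHom.congr_fun h H

theorem spl_ne_zero (r : ℕ) {H : RC J ι} (hH : H ≠ 0) : spl r H ≠ 0 := by
  intro h
  apply hH
  rw [← bck_spl r H, h, map_zero]

section

variable {S S' : Type*} [CommRing S] [CommRing S']

/-- evaluation -/
noncomputable def ev (c : J → S) (x : ℕ → ι → S) : RC J ι →+* S :=
  eval₂Hom (Int.castRingHom S) (Sum.elim c fun q => x q.1 q.2)

theorem ev_inl (c : J → S) (x : ℕ → ι → S) (j : J) : ev c x (X (Sum.inl j)) = c j := by
  rw [ev, coe_eval₂Hom, eval₂_X, Sum.elim_inl]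

theorem ev_inr (c : J → S) (x : ℕ → ι → S) (q : ℕ × ι) :
    ev c x (X (Sum.inr q)) = x q.1 q.2 := by
  rw [ev, coe_eval₂Hom, eval₂_X, Sum.elim_inr]

theorem ev_spl (c : J → S) (x : ℕ → ι → S) (r : ℕ) (H : RC J ι) :
    eval (x r) (map (ev c x) (spl r H)) = ev c x H := by
  have h : ((eval (x r)).comp (map (ev c x))).comp
      (spl r : RC J ι →ₐ[ℤ] MvPolynomial ι (RC J ι)).toRingHom = ev c x := by
    refine MvPolynomial.ringHom_ext' (RingHom.ext_int _ _) fun v => ?_
    change eval (x r) (map (ev c x) (spl r (X v))) = ev c x (X v)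
    rcases v with j | q
    · rw [spl_inl, map_C, eval_C]
    · rw [spl_inr]
      split_ifs with h1
      · rw [map_X, eval_X, ev_inr, h1]
      · rw [map_C, eval_C]
  exact RingHom.congr_fun h H

theorem ev_ext {c : J → S} {x y : ℕ → ι → S} {r : ℕ} {H : RC J ι}
    (hH : H ∈ supported ℤ (SC J ι r)) (h : ∀ j, 1 ≤ j → j ≤ r → x j = y j) :
    ev c x H = ev c y H := by
  classical
  rw [ev, ev, coe_eval₂Hom, coe_eval₂Hom]
  apply eval₂_congr
  intro v s hv hs
  rw [mem_supported] at hH
  have hv1 : v ∈ H.vars := (mem_vars_iff_mem_support v).2 ⟨s, mem_support_iff.2 hs, hv⟩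
  have hv2 := hH hv1
  rcases v with j | q
  · rfl
  · have := hv2 q rfl
    simp only [Sum.elim_inr]
    rw [h _ this.1 this.2]

theorem map_ev (f : S →+* S') (c : J → S) (x : ℕ → ι → S) (H : RC J ι) :
    f (ev c x H) = ev (fun j => f (c j)) (fun n i => f (x n i)) H := by
  have h : f.comp (ev c x) = ev (fun j => f (c j)) (fun n i => f (x n i)) := by
    refine MvPolynomial.ringHom_ext' (RingHom.ext_int _ _) fun v => ?_
    rcases v with j | q
    · rw [RingHom.comp_apply, ev_inl, ev_inl]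
    · rw [RingHom.comp_apply, ev_inr, ev_inr]
  exact RingHom.congr_fun h H

end

/-- the coefficients for the block `r + 1` are polynomials in the blocks `1, …, r` -/
theorem coeff_spl_mem (r : ℕ) {H : RC J ι} (hH : H ∈ supported ℤ (SC J ι (r + 1)))
    (s : ι →₀ ℕ) : coeff s (spl (r + 1) H) ∈ supported ℤ (SC J ι r) := by
  classical
  obtain ⟨T, hT⟩ := coeff_mem_of (σ := ι) (supported ℤ (SC J ι r)).toSubring
  have h1 : ∀ F : MvPolynomial ι (RC J ι), F ∈ T ↔ ∀ s, coeff s F ∈ supported ℤ (SC J ι r) := hT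
  refine (h1 _).1 ?_ s
  have hC : ∀ a ∈ supported ℤ (SC J ι r), (C a : MvPolynomial ι (RC J ι)) ∈ T := by
    intro a ha
    rw [h1]
    intro s
    rw [coeff_C]
    split_ifs
    · exact ha
    · exact zero_mem _
  rw [supported_eq_adjoin_X] at hH
  induction hH using Algebra.adjoin_induction with
  | mem x hx =>
    obtain ⟨v, hv, rfl⟩ := hx
    rcases v with j | q
    · rw [spl_inl]
      exact hC _ (X_mem_supported.2 (inl_mem_SC r j))
    · rw [spl_inr]
      split_ifs with h2
      · rw [h1]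
        intro s
        rw [coeff_X]
        split_ifs
        · exact one_mem _
        · exact zero_mem _
      · have h3 := hv q rfl
        exact hC _ (X_mem_supported.2 (inr_mem_SC h3.1 (by omega)))
  | algebraMap a =>
    rw [AlgHom.commutes]
    have h2 : algebraMap ℤ (MvPolynomial ι (RC J ι)) a = C (C a) := rfl
    rw [h2]
    exact hC _ ((supported ℤ (SC J ι r)).algebraMap_mem a)
  | add x y _ _ hx hy =>
    rw [map_add]
    exact T.add_mem hx hy
  | mul x y _ _ hx hy =>
    rw [map_mul]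
    exact T.mul_mem hx hy

end Pool.Agent.Helper52.SB
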