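import Mathlib

/-!
# Clusters of times
-/

set_option autoImplicit false

namespace Pool.Agent.Helper52.SB

/-- the previous time -/
def prv (t : ℕ → ℕ) (j : ℕ) : ℕ := if j = 0 then 0 else t (j - 1)

/-- the first time of the block `β` -/
def bas (n : ℕ → ℕ) (β : ℕ) : ℕ := if β = 0 then 0 else n β + 2

theorem times_aux (Ts Tl c : ℕ) (hc : c + 2 ≤ Tl) (P : ℕ) : ∀ t : ℕ → ℕ,
    (∀ j < P, prv t j ≤ t j ∧ (t j - prv t j < Ts ∨ Tl ≤ t j - prv t j)) →
    ∃ (β : ℕ) (b g n : ℕ → ℕ), β ≤ P ∧ n 0 = 0 ∧ (∀ j, n j + c ≤ n (j + 1)) ∧
      (∀ j < P, b j ≤ β ∧ g j ≤ P * Ts ∧ t j = bas n (b j) + g j) ∧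
      ∃ g' ≤ P * Ts, prv t P = bas n β + g' := by
  induction P with
  | zero =>
    intro t _
    refine ⟨0, fun _ => 0, fun _ => 0, fun j => j * c, le_rfl, by simp, fun j => by
      simp only
      rw [add_mul, one_mul], fun j hj => absurd hj (Nat.not_lt_zero j), 0, Nat.zero_le _, ?_⟩
    simp [prv, bas]
  | succ P ih =>
    intro t ht
    obtain ⟨β, b, g, n, hβ, hn0, hn, hbg, g', hg', hprv⟩ := ih t fun j hj => ht j (by omega)
    have hP : P * Ts ≤ (P + 1) * Ts := Nat.mul_le_mul_right _ (Nat.le_succ P)
    have hlast : prv t (P + 1) = t P := by simp [prv]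
    obtain ⟨h1, h2⟩ := ht P (Nat.lt_succ_self P)
    rcases h2 with h2 | h2
    · -- a small gap
      have h3 : t P = bas n β + (g' + (t P - prv t P)) := by omega
      have h4 : g' + (t P - prv t P) ≤ (P + 1) * Ts := by
        rw [add_mul, one_mul]
        omega
      refine ⟨β, fun j => if j = P then β else b j,
        fun j => if j = P then g' + (t P - prv t P) else g j, n, by omega, hn0, hn,
        fun j hj => ?_, g' + (t P - prv t P), h4, ?_⟩
      · by_cases hjP : j = P
        · subst hjP
          simp only [if_true]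
          exact ⟨le_rfl, h4, h3⟩
        · simp only [if_neg hjP]
          obtain ⟨h5, h6, h7⟩ := hbg j (by omega)
          exact ⟨h5, h6.trans hP, h7⟩
      · rw [hlast]
        exact h3
    · -- a large gap
      set n' : ℕ → ℕ := fun i => if i ≤ β then n i else t P - 2 + (i - (β + 1)) * c with hn'
      have hbas : ∀ i ≤ β, bas n' i = bas n i := by
        intro i hi
        rw [bas, bas, hn']
        simp only [if_pos hi]
      have hβn : n β ≤ bas n β := by
        rw [bas]
        split_ifs with h
        · rw [h, hn0]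
        · omega
      have h5 : n β + c ≤ t P - 2 := by omega
      have htP : 2 ≤ t P := by omega
      have hbas' : bas n' (β + 1) = t P := by
        rw [bas, if_neg (Nat.succ_ne_zero β), hn']
        simp only
        rw [if_neg (by omega), Nat.sub_self, zero_mul]
        omega
      refine ⟨β + 1, fun j => if j = P then β + 1 else b j, fun j => if j = P then 0 else g j, n',
        by omega, ?_, ?_, fun j hj => ?_, 0, Nat.zero_le _, ?_⟩
      · rw [hn']
        simp only [Nat.zero_le, if_true]
        exact hn0
      · intro j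
        rw [hn']
        simp only
        rcases lt_trichotomy j β with h6 | h6 | h6
        · rw [if_pos h6.le, if_pos (by omega)]
          exact hn j
        · subst h6
          rw [if_pos le_rfl, if_neg (by omega), Nat.sub_self, zero_mul]
          exact h5
        · rw [if_neg (by omega), if_neg (by omega)]
          have h7 : j + 1 - (β + 1) = (j - (β + 1)) + 1 := by omega
          rw [h7, add_mul, one_mul, add_assoc]
      · by_cases hjP : j = P
        · subst hjP
          simp only [if_true]
          exact ⟨le_rfl, Nat.zero_le _, by rw [hbas', add_zero]⟩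
        · simp only [if_neg hjP]
          obtain ⟨h6, h7, h8⟩ := hbg j (by omega)
          exact ⟨by omega, h7.trans hP, by rw [hbas _ h6]; exact h8⟩
      · rw [hlast, hbas', add_zero]

/-- Some interval between consecutive thresholds contains no gap. -/
theorem threshold {T : ℕ → ℕ} (hT : Monotone T) {P : ℕ} (gap : ℕ → ℕ) :
    ∃ s ≤ P, ∀ j < P, gap j < T s ∨ T (s + 1) ≤ gap j := by
  by_contra hcon
  push Not at hcon
  have h1 : ∀ s : Fin (P + 1), ∃ j : Fin P, T s ≤ gap j ∧ gap j < T ((s : ℕ) + 1) := by
    intro s
    obtain ⟨j, hj, h2, h3⟩ := hcon s (Nat.lt_succ_iff.1 s.2)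
    exact ⟨⟨j, hj⟩, h2, h3⟩
  choose f hf using h1
  have hinj : Function.Injective f := by
    intro s s' h
    by_contra hne
    rcases lt_or_gt_of_ne hne with h2 | h2
    · have h3 := hT (show (s : ℕ) + 1 ≤ s' from h2)
      have h4 := (hf s).2
      have h5 := (hf s').1
      rw [h] at h4
      omega
    · have h3 := hT (show (s' : ℕ) + 1 ≤ s from h2)
      have h4 := (hf s').2
      have h5 := (hf s).1
      rw [← h] at h4
      omega
  have := Fintype.card_le_of_injective f hinj
  rw [Fintype.card_fin, Fintype.card_fin] at this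
  omega

end Pool.Agent.Helper52.SB
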