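import Pool.Agent.Helper52.SB.Pat
import Pool.Agent.Helper52.SB.Times

/-!
# The optimal bound for the number of returns
-/

set_option autoImplicit false

namespace Pool.Agent.Helper52.SB

open MvPolynomial
open Pool.Agent.Helper86.MQ (pm)
open Pool.Agent.Helper26.DV

variable {m : ℕ} {w : Fin (m + 1) → ℕ}

/-- the exponents of degree at most `D` -/
noncomputable instance instFintypeEx (m D : ℕ) :
    Fintype {s : Fin (m + 1) →₀ ℕ // s.degree ≤ D} :=
  Pool.Agent.Helper26.MQ.instFintypeExp m D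

/-- the number of monomials of degree at most `D` -/
noncomputable def nm (m D : ℕ) : ℕ := Fintype.card {s : Fin (m + 1) →₀ ℕ // s.degree ≤ D}

theorem support_card_le {K : Type*} [CommRing K] {D : ℕ} {G : MvPolynomial (Fin (m + 1)) K}
    (hG : G.totalDegree ≤ D) : G.support.card ≤ nm m D := by
  classical
  rw [nm, ← Finset.card_univ]
  refine Finset.card_le_card_of_injOn
    (fun s => if h : s.degree ≤ D then (⟨s, h⟩ : {s : Fin (m + 1) →₀ ℕ // s.degree ≤ D})
      else ⟨0, by rw [map_zero]; exact Nat.zero_le _⟩) (fun s _ => Finset.mem_univ _) ?_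
  intro s hs t ht h
  have h1 : s.degree ≤ D := (le_totalDegree hs).trans hG
  have h2 : t.degree ≤ D := (le_totalDegree ht).trans hG
  simp only [dif_pos h1, dif_pos h2, Subtype.mk.injEq] at h
  exact h

/-- A matrix of values of monomials at zeros of a polynomial is singular. -/
theorem det_eq_zero_of_zeros {K : Type*} [Field K] {D : ℕ}
    (e' : Fin (nm m D) ≃ {s : Fin (m + 1) →₀ ℕ // s.degree ≤ D})
    {F : MvPolynomial (Fin (m + 1)) K} (hF : F ≠ 0) (hFD : F.totalDegree ≤ D)
    (y : Fin (nm m D) → Fin (m + 1) → K) (hy : ∀ j, eval (y j) F = 0) :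
    (Matrix.of fun (j i : Fin (nm m D)) => ∏ a, y j a ^ (e' i).1 a).det = 0 := by
  classical
  apply Matrix.exists_mulVec_eq_zero_iff.1
  refine ⟨fun i => coeff (e' i).1 F, ?_, ?_⟩
  · intro h3
    obtain ⟨s, hs⟩ := ne_zero_iff.1 hF
    have hsD : s.degree ≤ D := (le_totalDegree (mem_support_iff.2 hs)).trans hFD
    have h4 : coeff (e' (e'.symm ⟨s, hsD⟩)).1 F = 0 := congrFun h3 (e'.symm ⟨s, hsD⟩)
    apply hs
    rwa [Equiv.apply_symm_apply] at h4
  · funext j
    rw [Matrix.mulVec, dotProduct, Pi.zero_apply, ← hy j, eval_eq']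
    have h4 : ∑ s ∈ F.support, coeff s F * ∏ a, y j a ^ s a =
        ∑ s : {s : Fin (m + 1) →₀ ℕ // s.degree ≤ D}, coeff s.1 F * ∏ a, y j a ^ s.1 a := by
      symm
      refine Finset.sum_bij_ne_zero (fun s _ _ => s.1) ?_ ?_ ?_ ?_
      · intro s _ hs
        rw [mem_support_iff]
        exact left_ne_zero_of_mul hs
      · intro s _ _ s' _ _ hss
        exact Subtype.ext hss
      · intro s hs _
        exact ⟨⟨s, (le_totalDegree hs).trans hFD⟩, Finset.mem_univ _, by assumption, rfl⟩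
      · intro s _ _
        rfl
    rw [h4, ← Equiv.sum_comp e']
    refine Finset.sum_congr rfl fun i _ => ?_
    rw [Matrix.of_apply, mul_comm]

/-- **The optimal bound for the number of returns**, for the orbit of the origin. -/
theorem core {K : Type*} [Field K] (hw : ∀ i : Fin m, 1 ≤ w i.castSucc)
    (hw' : ∀ i : Fin m, w i.castSucc < w (Fin.last m)) (h0 : 1 ≤ w (Fin.last m)) (D : ℕ) :
    ∃ L : Finset (RR m w), (∀ l ∈ L, l ∈ supported ℤ (SC (VIdx m w) (Fin (m + 1)) 0) ∧ l ≠ 0) ∧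
    ∀ (v : AbsoluteValue K ℝ) (B : ℝ) (c : VIdx m w → K) (x : ℕ → Fin (m + 1) → K),
      Orc v B c x → (∀ a : ℤ, v (a : K) ≤ |(a : ℝ)|) → x 0 = (pm (vP c))^[2] 0 →
      (∀ l ∈ L, 1 ≤ v (ev c (fun _ => 0) l) * B) →
      ∀ F : MvPolynomial (Fin (m + 1)) K, F ≠ 0 → F.totalDegree ≤ D →
        {n | eval ((pm (vP c))^[n] 0) F = 0}.encard < nm m D := by
  classical
  set P := nm m D with hPdef
  set e' : Fin P ≃ {s : Fin (m + 1) →₀ ℕ // s.degree ≤ D} :=
    (Fintype.equivFin {s : Fin (m + 1) →₀ ℕ // s.degree ≤ D}).symm with he'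
  set e : Fin P → (Fin (m + 1) →₀ ℕ) := fun i => (e' i).1 with he
  have hinj : Function.Injective e := fun i j h => e'.injective (Subtype.ext h)
  have heD : ∀ i, (e i).degree ≤ D := fun i => (e' i).2
  have hw1 : ∀ i, 1 ≤ w i := fun i => Fin.lastCases h0 (fun i => hw i) i
  have hpat : ∀ b g : Fin P → ℕ, ∃ (l₀ : RR m w) (gc C : ℕ), (∀ j, b j ≤ P) →
      (∀ i j, b i = b j → g i = g j → i = j) →
      (l₀ ∈ supported ℤ (SC (VIdx m w) (Fin (m + 1)) 0) ∧ l₀ ≠ 0 ∧
        ∀ (v : AbsoluteValue K ℝ) (B : ℝ) (c : VIdx m w → K)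
        (x : ℕ → Fin (m + 1) → K), Orc v B c x → (∀ a : ℤ, v (a : K) ≤ |(a : ℝ)|) →
        1 ≤ v (ev c (fun _ => 0) l₀) * B → ∀ n : ℕ → ℕ,
        (∀ j, j < P → n j + gc ≤ n (j + 1)) →
          1 ≤ v (ev c (fun j => x (n j)) (patM w e b g).det) * v (x (n P) (Fin.last m)) ^ C) := by
    intro b g
    by_cases hb : ∀ j, b j ≤ P
    · by_cases hbg : ∀ i j, b i = b j → g i = g j → i = j
      · obtain ⟨l₀, h1, h2, gc, C, h3⟩ := multi (K := K) hw hw' h0 P (patM w e b g).det
          (pat_mem e b g hb) (pat_ne_zero e b g hw1 (fun G hG => support_card_le hG) hinj heD hbg)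
        exact ⟨l₀, gc, C, fun _ _ => ⟨h1, h2, h3⟩⟩
      · exact ⟨0, 0, 0, fun _ h => absurd h hbg⟩
    · exact ⟨0, 0, 0, fun h => absurd h hb⟩
  choose l₀ gc C hmain using hpat
  -- the thresholds
  set pb : Finset (Fin P → ℕ) := Fintype.piFinset fun _ => Finset.range (P + 1) with hpb
  set pg : ℕ → Finset (Fin P → ℕ) := fun Ts => Fintype.piFinset fun _ =>
    Finset.range (P * Ts + 1) with hpg
  set T : ℕ → ℕ := fun s => Nat.rec 0 (fun _ Ts => Ts + 2 + ∑ b ∈ pb, ∑ g ∈ pg Ts, gc b g) s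
    with hT
  have hTs : ∀ s, T (s + 1) = T s + 2 + ∑ b ∈ pb, ∑ g ∈ pg (T s), gc b g := fun s => rfl
  have hTm : Monotone T := monotone_nat_of_le_succ fun s => by rw [hTs]; omega
  refine ⟨(Finset.range (P + 1)).biUnion fun s => ((pb ×ˢ pg (T s)).filter fun q =>
    ∀ i j, q.1 i = q.1 j → q.2 i = q.2 j → i = j).image fun q => l₀ q.1 q.2, ?_, ?_⟩
  · intro l hl
    rw [Finset.mem_biUnion] at hl
    obtain ⟨s, -, hl⟩ := hl
    obtain ⟨q, hq, rfl⟩ := Finset.mem_image.1 hl
    obtain ⟨hq1, hq2⟩ := Finset.mem_filter.1 hq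
    have hq3 := (Finset.mem_product.1 hq1).1
    have h1 : ∀ j, q.1 j ≤ P := fun j => by
      have := Finset.mem_range.1 (Fintype.mem_piFinset.1 hq3 j)
      omega
    obtain ⟨h2, h3, -⟩ := hmain q.1 q.2 h1 hq2
    exact ⟨h2, h3⟩
  · intro v B c x hx hv hx0 hL F hF hFD
    by_contra hcon
    rw [not_lt] at hcon
    obtain ⟨S, hSS, hS⟩ := Set.exists_subset_encard_eq hcon
    have hSfin : S.Finite := Set.finite_of_encard_eq_coe hS
    have hcard : hSfin.toFinset.card = P := by
      have h1 := hSfin.encard_eq_coe_toFinset_card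
      rw [hS] at h1
      exact_mod_cast h1.symm
    set t' := hSfin.toFinset.orderEmbOfFin hcard with ht'
    have ht'mem : ∀ j, eval ((pm (vP c))^[t' j] 0) F = 0 := by
      intro j
      have h1 := hSfin.toFinset.orderEmbOfFin_mem hcard j
      exact hSS ((Set.Finite.mem_toFinset hSfin).1 h1)
    set t : ℕ → ℕ := fun j => if h : j < P then t' ⟨j, h⟩ else 0 with ht
    have htj : ∀ j : Fin P, t j = t' j := fun j => dif_pos j.2
    have hprv : ∀ j < P, prv t j ≤ t j := by
      intro j hj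
      rw [prv]
      split_ifs with h1
      · exact Nat.zero_le _
      · have h2 : t (j - 1) = t' ⟨j - 1, by omega⟩ := htj ⟨j - 1, by omega⟩
        have h3 : t j = t' ⟨j, hj⟩ := htj ⟨j, hj⟩
        rw [h2, h3]
        exact t'.monotone (show j - 1 ≤ j by omega)
    obtain ⟨s, hsP, hs⟩ := threshold hTm (P := P) fun j => t j - prv t j
    set c₀ := ∑ b ∈ pb, ∑ g ∈ pg (T s), gc b g with hc₀
    obtain ⟨β, b, g, n, hβ, hn0, hn, hbg, -⟩ := times_aux (T s) (T (s + 1)) c₀
      (by rw [hTs]; omega) P t fun j hj => ⟨hprv j hj, hs j hj⟩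
    set bb : Fin P → ℕ := fun j => b j with hbb
    set gg : Fin P → ℕ := fun j => g j with hgg
    have hb1 : ∀ j, bb j ≤ P := fun j => ((hbg j j.2).1).trans hβ
    have hdist : ∀ i j, bb i = bb j → gg i = gg j → i = j := by
      intro i j h1 h2
      have h3 : t i = t j := by
        rw [(hbg i i.2).2.2, (hbg j j.2).2.2]
        simp only [hbb, hgg] at h1 h2
        rw [h1, h2]
      rw [htj, htj] at h3
      exact t'.injective h3
    have hbmem : bb ∈ pb := by
      rw [hpb, Fintype.mem_piFinset]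
      intro j
      rw [Finset.mem_range]
      have := hb1 j
      omega
    have hgmem : gg ∈ pg (T s) := by
      rw [hpg, Fintype.mem_piFinset]
      intro j
      rw [Finset.mem_range]
      have := (hbg j j.2).2.1
      simp only [hgg]
      omega
    have hgc : gc bb gg ≤ c₀ := by
      rw [hc₀]
      refine le_trans ?_ (Finset.single_le_sum (f := fun b => ∑ g ∈ pg (T s), gc b g)
        (fun _ _ => Nat.zero_le _) hbmem)
      exact Finset.single_le_sum (f := fun g => gc bb g) (fun _ _ => Nat.zero_le _) hgmem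
    obtain ⟨-, -, h1⟩ := hmain bb gg hb1 hdist
    have h2 := h1 v B c x hx hv (hL _ ?_) n fun j _ => (Nat.add_le_add_left hgc _).trans (hn j)
    · have h3 : ev c (fun j => x (n j)) (patM w e bb gg).det = 0 := by
        rw [ev_pat]
        have h4 : ∀ j : Fin P, (pm (vP c))^[gg j] (if bb j = 0 then 0 else x (n (bb j))) =
            (pm (vP c))^[t' j] 0 := by
          intro j
          rw [← htj, (hbg j j.2).2.2, bas]
          split_ifs with h5
          · rw [zero_add]
          · have h6 : x (n (bb j)) = (pm (vP c))^[n (bb j) + 2] 0 := by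
              rw [Function.iterate_add_apply, ← hx0, iter_step hx, zero_add]
            rw [h6, ← Function.iterate_add_apply, add_comm (gg j)]
        simp only [h4]
        exact det_eq_zero_of_zeros e' hF hFD (fun j => (pm (vP c))^[t' j] 0) ht'mem
      rw [h3, map_zero, zero_mul] at h2
      linarith
    · rw [Finset.mem_biUnion]
      refine ⟨s, Finset.mem_range.2 (by omega), Finset.mem_image.2 ⟨(bb, gg), ?_, rfl⟩⟩
      exact Finset.mem_filter.2 ⟨Finset.mem_product.2 ⟨hbmem, hgmem⟩, hdist⟩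

end Pool.Agent.Helper52.SB
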