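import Pool.Agent.Helper52.SB.Blocks
import Pool.Agent.Helper26.DV.Defs

/-!
# Orbits near a superattracting point at infinity, with bounds which do not depend on the map
-/

set_option autoImplicit false

namespace Pool.Agent.Helper52.SB

open MvPolynomial
open Pool.Agent.Helper86.MQ (pm)
open Pool.Agent.Helper26.DV

variable {K : Type*} [Field K] {m : ℕ} {w : Fin (m + 1) → ℕ}

/-- The orbit `x` of the map with the coefficients `c` stays near the point at infinity of the last
axis. -/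
structure Orc (v : AbsoluteValue K ℝ) (B : ℝ) (c : VIdx m w → K)
    (x : ℕ → Fin (m + 1) → K) : Prop where
  two : 2 ≤ B
  coef : ∀ k, v (c k) ≤ B
  step : ∀ n, x (n + 1) = pm (vP c) (x n)
  big : ∀ n, B ≤ v (x n (Fin.last m))
  le : ∀ n i, v (x n i) ≤ v (x n (Fin.last m))
  grow : ∀ n, v (x n (Fin.last m)) ^ 2 ≤ v (x (n + 1) (Fin.last m))
  ratio : ∀ n i, i ≠ Fin.last m →
    v (x (n + 1) i) * v (x n (Fin.last m)) ≤ B * v (x (n + 1) (Fin.last m))

variable {v : AbsoluteValue K ℝ} {B : ℝ} {c : VIdx m w → K} {x : ℕ → Fin (m + 1) → K}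

theorem Orc.two_le (hx : Orc v B c x) (n : ℕ) : 2 ≤ v (x n (Fin.last m)) :=
  hx.two.trans (hx.big n)

theorem Orc.one_le (hx : Orc v B c x) (n : ℕ) : 1 ≤ v (x n (Fin.last m)) :=
  one_le_two.trans (hx.two_le n)

theorem Orc.mono (hx : Orc v B c x) : Monotone fun n => v (x n (Fin.last m)) := by
  refine monotone_nat_of_le_succ fun n => ?_
  have h1 := hx.one_le n
  have h2 := hx.grow n
  nlinarith

/-- doubly exponential growth -/
theorem Orc.pow_le (hx : Orc v B c x) (n j : ℕ) :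
    v (x n (Fin.last m)) ^ j ≤ v (x (n + j) (Fin.last m)) := by
  have h1 := hx.one_le n
  have h : v (x n (Fin.last m)) ^ (2 ^ j) ≤ v (x (n + j) (Fin.last m)) := by
    induction j with
    | zero => simp
    | succ j ih =>
      have h2 := hx.grow (n + j)
      calc v (x n (Fin.last m)) ^ (2 ^ (j + 1)) = (v (x n (Fin.last m)) ^ (2 ^ j)) ^ 2 := by
            rw [← pow_mul, pow_succ]
        _ ≤ v (x (n + j) (Fin.last m)) ^ 2 := pow_le_pow_left₀ (by positivity) ih 2
        _ ≤ _ := h2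
  exact (pow_le_pow_right₀ h1 Nat.lt_two_pow_self.le).trans h

theorem prod_le {ρ : ℝ} (y : Fin (m + 1) → K) (hy : ∀ i, v (y i) ≤ ρ)
    (s : Fin (m + 1) →₀ ℕ) : v (∏ i, y i ^ s i) ≤ ρ ^ s.degree := by
  rw [map_prod, Finsupp.degree_eq_sum, ← Finset.prod_pow_eq_pow_sum]
  refine Finset.prod_le_prod (fun i _ => v.nonneg _) fun i _ => ?_
  rw [map_pow]
  exact pow_le_pow_left₀ (v.nonneg _) (hy i) _

/-- the other monomials are smaller -/
theorem Orc.small (hx : Orc v B c x) (n : ℕ) {E : ℕ} {s : Fin (m + 1) →₀ ℕ}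
    (hs : s.degree ≤ E) (hne : s ≠ Finsupp.single (Fin.last m) E) :
    v (∏ i, x (n + 1) i ^ s i) * v (x n (Fin.last m)) ≤
      B * v (x (n + 1) (Fin.last m)) ^ E := by
  classical
  set ρ := v (x (n + 1) (Fin.last m)) with hρ
  have hρ1 : 1 ≤ ρ := hx.one_le (n + 1)
  have hB1 : 1 ≤ B := one_le_two.trans hx.two
  by_cases h : ∃ i, i ≠ Fin.last m ∧ s i ≠ 0
  · obtain ⟨i, hi, hsi⟩ := h
    set s' : Fin (m + 1) →₀ ℕ := s - Finsupp.single i 1 with hs'
    have hle : Finsupp.single i 1 ≤ s := by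
      rw [Finsupp.single_le_iff]
      omega
    have hsum : s = Finsupp.single i 1 + s' := (add_tsub_cancel_of_le hle).symm
    have hdeg : s.degree = 1 + s'.degree := by
      rw [hsum, map_add, Finsupp.degree_single]
    have hprod : ∏ j, x (n + 1) j ^ s j = x (n + 1) i * ∏ j, x (n + 1) j ^ s' j := by
      have h1 : ∀ j, x (n + 1) j ^ s j = x (n + 1) j ^ (Finsupp.single i 1 : Fin (m + 1) →₀ ℕ) j *
          x (n + 1) j ^ s' j := by
        intro j
        rw [← pow_add, ← Finsupp.add_apply, ← hsum]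
      rw [Finset.prod_congr rfl fun j _ => h1 j, Finset.prod_mul_distrib]
      congr 1
      rw [Finset.prod_eq_single i]
      · simp
      · intro b _ hb
        rw [Finsupp.single_eq_of_ne hb, pow_zero]
      · simp
    rw [hprod, map_mul]
    have h1 := hx.ratio n i hi
    have h2 := prod_le (v := v) (x (n + 1)) (hx.le (n + 1)) s'
    calc v (x (n + 1) i) * v (∏ j, x (n + 1) j ^ s' j) * v (x n (Fin.last m))
        = (v (x (n + 1) i) * v (x n (Fin.last m))) * v (∏ j, x (n + 1) j ^ s' j) := by ring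
      _ ≤ (B * ρ) * ρ ^ s'.degree :=
          mul_le_mul h1 h2 (v.nonneg _) (by positivity)
      _ = B * ρ ^ s.degree := by rw [hdeg, pow_add, pow_one, mul_assoc]
      _ ≤ B * ρ ^ E := mul_le_mul_of_nonneg_left (pow_le_pow_right₀ hρ1 hs) (by linarith)
  · push Not at h
    have hs1 : s = Finsupp.single (Fin.last m) (s (Fin.last m)) := by
      ext j
      by_cases hj : j = Fin.last m
      · rw [hj, Finsupp.single_eq_same]
      · rw [Finsupp.single_eq_of_ne hj, h j hj]
    have hdeg : s.degree = s (Fin.last m) := by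
      conv_lhs => rw [hs1]
      rw [Finsupp.degree_single]
    have hlt : s (Fin.last m) + 1 ≤ E := by
      rw [hdeg] at hs
      rcases Nat.lt_or_eq_of_le hs with h2 | h2
      · exact h2
      · exact absurd (by rw [hs1, h2]) hne
    have h1 := prod_le (v := v) (x (n + 1)) (hx.le (n + 1)) s
    have h2 : v (x n (Fin.last m)) ≤ ρ := hx.mono (Nat.le_succ n)
    calc v (∏ i, x (n + 1) i ^ s i) * v (x n (Fin.last m)) ≤ ρ ^ s.degree * ρ :=
          mul_le_mul h1 h2 (v.nonneg _) (by positivity)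
      _ = ρ ^ (s (Fin.last m) + 1) := by rw [hdeg, pow_succ]
      _ ≤ ρ ^ E := pow_le_pow_right₀ hρ1 hlt
      _ ≤ B * ρ ^ E := le_mul_of_one_le_left (by positivity) hB1

/-- **Domination.** -/
theorem Orc.dom (hx : Orc v B c x) (n : ℕ) {E : ℕ}
    {G : MvPolynomial (Fin (m + 1)) K} (hG : G.totalDegree ≤ E)
    (hS : 2 * B * ∑ s ∈ G.support, v (coeff s G) ≤
      v (coeff (Finsupp.single (Fin.last m) E) G) * v (x n (Fin.last m))) :
    v (coeff (Finsupp.single (Fin.last m) E) G) * v (x (n + 1) (Fin.last m)) ^ E ≤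
      2 * v (eval (x (n + 1)) G) := by
  classical
  set ρ := v (x (n + 1) (Fin.last m)) with hρ
  set s₀ : Fin (m + 1) →₀ ℕ := Finsupp.single (Fin.last m) E with hs₀
  set X := v (x n (Fin.last m)) with hX
  have hρ1 : 1 ≤ ρ := hx.one_le (n + 1)
  have hX1 : 1 ≤ X := hx.one_le n
  have hB0 : 0 ≤ B := zero_le_two.trans hx.two
  by_cases h0 : coeff s₀ G = 0
  · rw [h0, map_zero, zero_mul]
    exact mul_nonneg zero_le_two (v.nonneg _)
  have hmem : s₀ ∈ G.support := mem_support_iff.2 h0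
  have h1 : eval (x (n + 1)) G = coeff s₀ G * x (n + 1) (Fin.last m) ^ E +
      ∑ s ∈ G.support.erase s₀, coeff s G * ∏ i, x (n + 1) i ^ s i := by
    rw [eval_eq', ← Finset.add_sum_erase _ _ hmem]
    congr 2
    rw [Finset.prod_eq_single (Fin.last m)]
    · rw [hs₀, Finsupp.single_eq_same]
    · intro b _ hb
      rw [hs₀, Finsupp.single_eq_of_ne hb, pow_zero]
    · simp
  have h2 : v (∑ s ∈ G.support.erase s₀, coeff s G * ∏ i, x (n + 1) i ^ s i) * X ≤
      (∑ s ∈ G.support, v (coeff s G)) * (B * ρ ^ E) := by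
    calc _ ≤ (∑ s ∈ G.support.erase s₀, v (coeff s G * ∏ i, x (n + 1) i ^ s i)) * X :=
          mul_le_mul_of_nonneg_right (v.sum_le _ _) (by linarith)
      _ = ∑ s ∈ G.support.erase s₀, v (coeff s G) * (v (∏ i, x (n + 1) i ^ s i) * X) := by
          rw [Finset.sum_mul]
          refine Finset.sum_congr rfl fun s _ => ?_
          rw [map_mul, mul_assoc]
      _ ≤ ∑ s ∈ G.support.erase s₀, v (coeff s G) * (B * ρ ^ E) := by
          refine Finset.sum_le_sum fun s hs => ?_
          rw [Finset.mem_erase] at hs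
          exact mul_le_mul_of_nonneg_left
            (hx.small n ((le_totalDegree hs.2).trans hG) hs.1) (v.nonneg _)
      _ ≤ ∑ s ∈ G.support, v (coeff s G) * (B * ρ ^ E) :=
          Finset.sum_le_sum_of_subset_of_nonneg (Finset.erase_subset _ _) fun s _ _ =>
            mul_nonneg (v.nonneg _) (by positivity)
      _ = _ := by rw [Finset.sum_mul]
  have h3 : v (coeff s₀ G) * ρ ^ E ≤ v (eval (x (n + 1)) G) +
      v (∑ s ∈ G.support.erase s₀, coeff s G * ∏ i, x (n + 1) i ^ s i) := by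
    have h4 : coeff s₀ G * x (n + 1) (Fin.last m) ^ E = eval (x (n + 1)) G +
        -(∑ s ∈ G.support.erase s₀, coeff s G * ∏ i, x (n + 1) i ^ s i) := by
      rw [h1]
      ring
    have h5 := v.add_le (eval (x (n + 1)) G)
      (-(∑ s ∈ G.support.erase s₀, coeff s G * ∏ i, x (n + 1) i ^ s i))
    rw [← h4, map_mul, map_pow, AbsoluteValue.map_neg] at h5
    exact h5
  have hρE : 0 < ρ ^ E := by positivity
  have h6 : 2 * ((∑ s ∈ G.support, v (coeff s G)) * (B * ρ ^ E)) ≤
      (v (coeff s₀ G) * ρ ^ E) * X := by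
    calc _ = (2 * B * ∑ s ∈ G.support, v (coeff s G)) * ρ ^ E := by ring
      _ ≤ (v (coeff s₀ G) * X) * ρ ^ E := mul_le_mul_of_nonneg_right hS hρE.le
      _ = _ := by ring
  have h7 : 2 * v (∑ s ∈ G.support.erase s₀, coeff s G * ∏ i, x (n + 1) i ^ s i) ≤
      v (coeff s₀ G) * ρ ^ E := by
    have h8 : (2 * v (∑ s ∈ G.support.erase s₀, coeff s G * ∏ i, x (n + 1) i ^ s i)) * X ≤
        (v (coeff s₀ G) * ρ ^ E) * X := by linarith
    exact le_of_mul_le_mul_right h8 (by linarith)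
  linarith

theorem le_last {n : ℕ → ℕ} : ∀ r : ℕ, (∀ j, j < r → n j ≤ n (j + 1)) → ∀ j ≤ r, n j ≤ n r := by
  intro r
  induction r with
  | zero =>
    intro _ j hj
    rw [Nat.le_zero.1 hj]
  | succ r ih =>
    intro h j hj
    rcases Nat.lt_or_eq_of_le hj with h1 | h1
    · exact (ih (fun k hk => h k (by omega)) j (by omega)).trans (h r (by omega))
    · rw [h1]

/-- **Upper bounds** for polynomials in the coefficients and in several points of the orbit. -/
theorem upper (r : ℕ) {H : RC (VIdx m w) (Fin (m + 1))}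
    (hH : H ∈ supported ℤ (SC (VIdx m w) (Fin (m + 1)) r)) :
    ∃ C : ℕ, ∀ (v : AbsoluteValue K ℝ) (B : ℝ) (c : VIdx m w → K) (x : ℕ → Fin (m + 1) → K),
      Orc v B c x → (∀ a : ℤ, v (a : K) ≤ |(a : ℝ)|) → ∀ n : ℕ → ℕ,
      (∀ j, j < r → n j ≤ n (j + 1)) →
        v (ev c (fun j => x (n j)) H) ≤ v (x (n r) (Fin.last m)) ^ C := by
  classical
  obtain ⟨c', hc'⟩ := pow_unbounded_of_one_lt (∑ s ∈ H.support, |((coeff s H : ℤ) : ℝ)|)
    one_lt_two
  refine ⟨c' + H.totalDegree, fun v B c x hx hv n hn => ?_⟩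
  set ρ := v (x (n r) (Fin.last m)) with hρ
  have hρ1 : 1 ≤ ρ := hx.one_le _
  have h2ρ : 2 ≤ ρ := hx.two_le _
  have hBρ : B ≤ ρ := hx.big _
  rw [mem_supported] at hH
  rw [ev, coe_eval₂Hom, eval₂_eq]
  have hterm : ∀ s ∈ H.support, v ((Int.castRingHom K) (coeff s H) *
      ∏ q ∈ s.support, (Sum.elim c fun q : ℕ × Fin (m + 1) => x (n q.1) q.2) q ^ s q) ≤
      |((coeff s H : ℤ) : ℝ)| * ρ ^ H.totalDegree := by
    intro s hs
    rw [map_mul]
    refine mul_le_mul (hv _) ?_ (v.nonneg _) (abs_nonneg _)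
    rw [map_prod]
    have h1 : ∏ q ∈ s.support,
        v ((Sum.elim c fun q : ℕ × Fin (m + 1) => x (n q.1) q.2) q ^ s q) ≤
        ∏ q ∈ s.support, ρ ^ s q := by
      refine Finset.prod_le_prod (fun _ _ => v.nonneg _) fun q hq => ?_
      rw [map_pow]
      refine pow_le_pow_left₀ (v.nonneg _) ?_ _
      have hw1 : q ∈ H.vars := (mem_vars_iff_mem_support q).2 ⟨s, hs, hq⟩
      have hw2 := hH hw1
      rcases q with k | q
      · exact (hx.coef k).trans hBρ
      · exact (hx.le _ _).trans (hx.mono (le_last r hn _ (hw2 q rfl).2))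
    refine h1.trans ?_
    rw [Finset.prod_pow_eq_pow_sum]
    exact pow_le_pow_right₀ hρ1 (le_totalDegree hs)
  calc v (∑ s ∈ H.support, (Int.castRingHom K) (coeff s H) *
      ∏ q ∈ s.support, (Sum.elim c fun q : ℕ × Fin (m + 1) => x (n q.1) q.2) q ^ s q)
      ≤ ∑ s ∈ H.support, v ((Int.castRingHom K) (coeff s H) *
      ∏ q ∈ s.support, (Sum.elim c fun q : ℕ × Fin (m + 1) => x (n q.1) q.2) q ^ s q) :=
        v.sum_le _ _
    _ ≤ ∑ s ∈ H.support, |((coeff s H : ℤ) : ℝ)| * ρ ^ H.totalDegree :=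
        Finset.sum_le_sum hterm
    _ = (∑ s ∈ H.support, |((coeff s H : ℤ) : ℝ)|) * ρ ^ H.totalDegree :=
        (Finset.sum_mul _ _ _).symm
    _ ≤ 2 ^ c' * ρ ^ H.totalDegree := mul_le_mul_of_nonneg_right hc'.le (by positivity)
    _ ≤ ρ ^ c' * ρ ^ H.totalDegree :=
        mul_le_mul_of_nonneg_right (pow_le_pow_left₀ (by linarith) h2ρ _) (by positivity)
    _ = _ := (pow_add _ _ _).symm

end Pool.Agent.Helper52.SB
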