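import Pool.Agent.Helper86.GT.Gap
import Pool.Agent.Helper52.SB.Orb
import Pool.Agent.Helper86.DV.Finite

/-!
# Orbits in the escaping region
-/

set_option autoImplicit false

namespace Pool.Agent.Helper52.SB

open MvPolynomial
open Pool.Agent.Helper86.MQ (pm)
open Pool.Agent.Helper86.RR (eval_le)
open Pool.Agent.Helper26.DV
open Pool.Agent.Helper26.GT (wd ca)
open Pool.Agent.Helper86.GT (Es eval_lower)

variable {K : Type*} [Field K] {m d e : ℕ}

/-- One step in the escaping region. -/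
theorem esc_step (v : AbsoluteValue K ℝ) (hd : 2 ≤ d) (he : e < d)
    {Φ : Fin (m + 1) → MvPolynomial (Fin (m + 1)) K} (deg : ∀ i, (Φ i).totalDegree ≤ wd d e i)
    (top : ca d Φ ≠ 0) {C lam R₀ : ℝ} (hC1 : 1 ≤ C)
    (hCi : ∀ i, ∑ s ∈ (Φ i).support, v (coeff s (Φ i)) ≤ C)
    (hlam : 1 + 2 * C / v (ca d Φ) ≤ lam)
    (hR₀ : lam + 4 / v (ca d Φ) + 2 * lam * C / v (ca d Φ) ≤ R₀)
    {y : Fin (m + 1) → K} (hE : Es v lam R₀ y) :
    Es v lam R₀ (pm Φ y) ∧
    v (ca d Φ) / 2 * v (y (Fin.last m)) ^ d ≤ v (pm Φ y (Fin.last m)) ∧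
    2 * v (y (Fin.last m)) ≤ v (pm Φ y (Fin.last m)) ∧
    (∀ j, v (y j) ≤ v (y (Fin.last m))) ∧
    ∀ i : Fin m, v (pm Φ y i.castSucc) ≤ C * v (y (Fin.last m)) ^ e := by
  classical
  have hC0 : 0 < C := zero_lt_one.trans_le hC1
  have hdL : (Φ (Fin.last m)).totalDegree ≤ d := by
    have h1 := deg (Fin.last m)
    rwa [wd, if_pos rfl] at h1
  have hdi : ∀ i : Fin m, (Φ i.castSucc).totalDegree ≤ e := by
    intro i
    have h1 := deg i.castSucc
    rwa [wd, if_neg (Fin.castSucc_lt_last i).ne] at h1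
  set α : ℝ := v (ca d Φ) with hα
  have hα0 : 0 < α := v.pos top
  have hCα : 0 ≤ 2 * C / α := by positivity
  have hlam1 : 1 ≤ lam := by linarith
  have hlam0 : 0 < lam := zero_lt_one.trans_le hlam1
  have hlamC : C / lam ≤ α / 2 := by
    rw [div_le_iff₀ hlam0]
    have h1 : α / 2 * (1 + 2 * C / α) = α / 2 + C := by field_simp
    have h2 : α / 2 * (1 + 2 * C / α) ≤ α / 2 * lam :=
      mul_le_mul_of_nonneg_left hlam (by positivity)
    linarith
  have hp1 : 0 ≤ 4 / α := by positivity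
  have hp2 : 0 ≤ 2 * lam * C / α := by positivity
  have hR₀lam : lam ≤ R₀ := by linarith
  have hR₀1 : 1 ≤ R₀ := hlam1.trans hR₀lam
  have hbd : ∀ j, v (y j) ≤ v (y (Fin.last m)) := by
    intro j
    refine Fin.lastCases le_rfl (fun i => ?_) j
    refine le_trans ?_ (hE.2 i)
    exact le_mul_of_one_le_left (v.nonneg _) hlam1
  set ρ := v (y (Fin.last m)) with hρ
  have hρ1 : 1 ≤ ρ := hR₀1.trans hE.1
  have hρ0 : 0 < ρ := zero_lt_one.trans_le hρ1
  have hold : ∀ i : Fin m, v (pm Φ y i.castSucc) ≤ C * ρ ^ e := by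
    intro i
    refine (eval_le v (hdi i) y ρ hρ1 hbd).trans ?_
    exact mul_le_mul_of_nonneg_right (hCi _) (by positivity)
  have hb : α / 2 * ρ ^ d ≤ v (pm Φ y (Fin.last m)) := by
    have h1 := eval_lower v y (ρ / lam) ρ
      ((one_le_div hlam0).2 (hR₀lam.trans hE.1)) (div_le_self hρ0.le hlam1) rfl
      (fun i => by rw [le_div_iff₀ hlam0, mul_comm]; exact hE.2 i) (Φ (Fin.last m)) d hdL
    have h2 : (∑ s ∈ (Φ (Fin.last m)).support, v (coeff s (Φ (Fin.last m)))) *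
        (ρ / lam * ρ ^ d) ≤ ρ * (α / 2 * ρ ^ d) := by
      calc (∑ s ∈ (Φ (Fin.last m)).support, v (coeff s (Φ (Fin.last m)))) * (ρ / lam * ρ ^ d)
          ≤ C * (ρ / lam * ρ ^ d) := mul_le_mul_of_nonneg_right (hCi _) (by positivity)
        _ = C / lam * (ρ * ρ ^ d) := by ring
        _ ≤ α / 2 * (ρ * ρ ^ d) := mul_le_mul_of_nonneg_right hlamC (by positivity)
        _ = ρ * (α / 2 * ρ ^ d) := by ring
    have h3 : ρ * (α * ρ ^ d) ≤ ρ * v (pm Φ y (Fin.last m)) + ρ * (α / 2 * ρ ^ d) :=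
      h1.trans (add_le_add le_rfl h2)
    have h4 : ρ * (α / 2 * ρ ^ d) ≤ ρ * v (pm Φ y (Fin.last m)) := by
      have h5 : ρ * (α * ρ ^ d) = ρ * (α / 2 * ρ ^ d) + ρ * (α / 2 * ρ ^ d) := by ring
      linarith
    exact le_of_mul_le_mul_left h4 hρ0
  have h1 : 2 * ρ ≤ v (pm Φ y (Fin.last m)) := by
    refine le_trans ?_ hb
    have h2 : 4 / α ≤ ρ := by linarith [hE.1]
    rw [div_le_iff₀ hα0] at h2
    have h3 : ρ ^ 2 ≤ ρ ^ d := pow_le_pow_right₀ hρ1 hd
    calc 2 * ρ = 4 / 2 * ρ := by norm_num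
      _ ≤ (ρ * α) / 2 * ρ := by
          refine mul_le_mul_of_nonneg_right ?_ hρ0.le
          linarith
      _ = α / 2 * ρ ^ 2 := by ring
      _ ≤ α / 2 * ρ ^ d := mul_le_mul_of_nonneg_left h3 (by positivity)
  refine ⟨⟨by linarith [hE.1], fun i => ?_⟩, hb, h1, hbd, hold⟩
  have h2 := hold i
  refine le_trans (mul_le_mul_of_nonneg_left h2 hlam0.le) (le_trans ?_ hb)
  have h3 : 2 * lam * C / α ≤ ρ := by linarith [hE.1]
  rw [div_le_iff₀ hα0] at h3
  have h4 : ρ ^ (e + 1) ≤ ρ ^ d := pow_le_pow_right₀ hρ1 he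
  calc lam * (C * ρ ^ e) = (2 * lam * C) / 2 * ρ ^ e := by ring
    _ ≤ (ρ * α) / 2 * ρ ^ e := by
        refine mul_le_mul_of_nonneg_right ?_ (by positivity)
        linarith
    _ = α / 2 * ρ ^ (e + 1) := by ring
    _ ≤ α / 2 * ρ ^ d := mul_le_mul_of_nonneg_left h4 (by positivity)

variable {w : Fin (m + 1) → ℕ}

/-- An orbit which starts in the escaping region. -/
theorem orc_of (v : AbsoluteValue K ℝ) (hw' : ∀ i : Fin m, w i.castSucc < w (Fin.last m))
    (hd : 2 ≤ w (Fin.last m)) {c : VIdx m w → K} {C lam R₀ : ℝ} (hC1 : 1 ≤ C)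
    (hC : ∀ k, v (c k) ≤ 2 * C)
    (hCi : ∀ i, ∑ s ∈ (vP c i).support, v (coeff s (vP c i)) ≤ C)
    (ha : 2 ≤ v (c (vsp m w))) (hlam : 1 + 2 * C / v (c (vsp m w)) ≤ lam)
    (hR₀ : lam + 4 / v (c (vsp m w)) + 2 * lam * C / v (c (vsp m w)) ≤ R₀)
    {y : Fin (m + 1) → K} (hE : Es v lam R₀ y) (hy : 2 * C ≤ v (y (Fin.last m))) :
    Orc v (2 * C) c fun n => (pm (vP c))^[n] y := by
  classical
  set d := w (Fin.last m) with hddef
  have hca : ca d (vP c) = c (vsp m w) := by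
    rw [ca]
    exact coeff_vP c (Fin.last m)
      ⟨Finsupp.single (Fin.last m) (w (Fin.last m)), by rw [Finsupp.degree_single]⟩
  have htop : ca d (vP c) ≠ 0 := by
    intro h
    rw [← hca, h, map_zero] at ha
    linarith
  rw [← hca] at ha hlam hR₀
  have hdeg : ∀ i, (vP c i).totalDegree ≤ wd d (d - 1) i := by
    intro i
    refine le_trans ?_ (Pool.Agent.Helper86.DV.le_wd (fun i => by have := hw' i; omega) i)
    rw [vP]
    refine totalDegree_finsetSum_le fun s _ => ?_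
    exact (totalDegree_monomial_le _ _).trans s.2
  have hstep : ∀ n, Es v lam R₀ ((pm (vP c))^[n] y) := by
    intro n
    induction n with
    | zero => exact hE
    | succ n ih =>
      rw [Function.iterate_succ_apply']
      exact (esc_step v hd (Nat.sub_lt (by omega) one_pos) hdeg htop hC1 hCi hlam hR₀ ih).1
  have hall := fun n =>
    (esc_step v hd (Nat.sub_lt (by omega) one_pos) hdeg htop hC1 hCi hlam hR₀ (hstep n)).2
  have hsucc : ∀ n, (pm (vP c))^[n + 1] y = pm (vP c) ((pm (vP c))^[n] y) := fun n =>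
    Function.iterate_succ_apply' _ _ _
  have hbig : ∀ n, 2 * C ≤ v ((pm (vP c))^[n] y (Fin.last m)) := by
    intro n
    induction n with
    | zero => exact hy
    | succ n ih =>
      rw [hsucc]
      have := (hall n).2.1
      linarith
  have hone : ∀ n, 1 ≤ v ((pm (vP c))^[n] y (Fin.last m)) := fun n => by
    have := hbig n
    linarith
  refine ⟨by linarith, hC, fun n => hsucc n, hbig, fun n j => (hall n).2.2.1 j, fun n => ?_,
    fun n i hi => ?_⟩
  · simp only [hsucc]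
    refine le_trans ?_ (hall n).1
    set ρ := v ((pm (vP c))^[n] y (Fin.last m)) with hρ
    have h1 : ρ ^ 2 ≤ ρ ^ d := pow_le_pow_right₀ (hone n) hd
    have h2 : 1 ≤ v (ca d (vP c)) / 2 := by linarith
    calc ρ ^ 2 ≤ ρ ^ d := h1
      _ ≤ v (ca d (vP c)) / 2 * ρ ^ d := le_mul_of_one_le_left (by positivity) h2
  · simp only [hsucc]
    obtain ⟨i, rfl⟩ : ∃ i' : Fin m, i = i'.castSucc := ⟨i.castPred hi, (Fin.castSucc_castPred i hi).symm⟩
    set ρ := v ((pm (vP c))^[n] y (Fin.last m)) with hρ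
    have hρ0 : 0 ≤ ρ := v.nonneg _
    have h1 := (hall n).2.2.2 i
    have h2 := (hall n).1
    have h3 : ρ ^ (d - 1) * ρ = ρ ^ d := by
      rw [← pow_succ]
      congr 1
      omega
    have h4 : 1 ≤ v (ca d (vP c)) / 2 := by linarith
    calc v (pm (vP c) ((pm (vP c))^[n] y) i.castSucc) * ρ ≤ (C * ρ ^ (d - 1)) * ρ :=
          mul_le_mul_of_nonneg_right h1 hρ0
      _ = C * ρ ^ d := by rw [mul_assoc, h3]
      _ ≤ C * (v (ca d (vP c)) / 2 * ρ ^ d) :=
          mul_le_mul_of_nonneg_left (le_mul_of_one_le_left (by positivity) h4) (by linarith)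
      _ ≤ C * v (pm (vP c) ((pm (vP c))^[n] y) (Fin.last m)) :=
          mul_le_mul_of_nonneg_left h2 (by linarith)
      _ ≤ 2 * C * v (pm (vP c) ((pm (vP c))^[n] y) (Fin.last m)) :=
          mul_le_mul_of_nonneg_right (by linarith) (v.nonneg _)

end Pool.Agent.Helper52.SB
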