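import Mathlib

/-!
# Powers of positive numbers do not lie on hypersurfaces of small degree
-/

set_option autoImplicit false

namespace Pool.Agent.Helper52.SB

open MvPolynomial

theorem signVar_le (n : ℕ) : ∀ g : Polynomial ℝ, g.support.card ≤ n + 1 → g.signVariations ≤ n := by
  induction n with
  | zero =>
    intro g hg
    rcases Nat.le_one_iff_eq_zero_or_eq_one.1 hg with h | h
    · have h1 : g = 0 := Polynomial.support_eq_empty.1 (Finset.card_eq_zero.1 h)
      rw [h1, Polynomial.signVariations_zero]
    · obtain ⟨k, x, -, h1⟩ := Polynomial.card_support_eq_one.1 h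
      rw [h1, Polynomial.C_mul_X_pow_eq_monomial, Polynomial.signVariations_monomial]
  | succ n ih =>
    intro g hg
    refine (Polynomial.signVariations_le_eraseLead_succ g).trans ?_
    have := ih g.eraseLead (by rw [Polynomial.card_support_eraseLead]; omega)
    omega

/-- A real polynomial has fewer positive zeros than monomials. -/
theorem pos_roots_lt {g : Polynomial ℝ} (hg : g ≠ 0) (Z : Finset ℝ) (hZ : ∀ z ∈ Z, 0 < z ∧ g.eval z = 0) :
    Z.card < g.support.card := by
  classical
  have h0 : 0 < g.support.card := Finset.card_pos.2 (Polynomial.nonempty_support_iff.2 hg)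
  have h1 : g.signVariations ≤ g.support.card - 1 := signVar_le _ g (by omega)
  have h2 := Polynomial.roots_countP_pos_le_signVariations g
  have h3 : Z.card ≤ g.roots.countP (0 < ·) := by
    rw [Multiset.countP_eq_card_filter]
    have h4 : Z.val ≤ g.roots.filter (0 < ·) := by
      rw [Multiset.le_iff_subset Z.nodup]
      intro z hz
      have h5 := hZ z hz
      rw [Multiset.mem_filter, Polynomial.mem_roots hg]
      exact ⟨h5.2, h5.1⟩
    exact Multiset.card_le_card h4
  omega

/-- the number with the digits `s i` for the base `b` -/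
def code {m : ℕ} (b : ℕ) (s : Fin (m + 1) → ℕ) : ℕ := ∑ i : Fin (m + 1), s i * b ^ (i : ℕ)

theorem code_injOn {m : ℕ} {b : ℕ} {s t : Fin (m + 1) → ℕ} (hs : ∀ i, s i < b)
    (ht : ∀ i, t i < b) (h : code b s = code b t) : s = t := by
  induction m with
  | zero =>
    simp only [code, Fin.sum_univ_succ, Fin.sum_univ_zero] at h
    funext i
    fin_cases i
    simpa using h
  | succ m ih =>
    have hsplit : ∀ u : Fin (m + 2) → ℕ, code b u = u 0 + b * code b (fun i : Fin (m + 1) =>
        u i.succ) := by
      intro u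
      rw [code, Fin.sum_univ_succ, code, Finset.mul_sum]
      congr 1
      · simp
      · refine Finset.sum_congr rfl fun i _ => ?_
        rw [Fin.val_succ, pow_succ]
        ring
    rw [hsplit s, hsplit t] at h
    have hb : 0 < b := lt_of_le_of_lt (Nat.zero_le _) (hs 0)
    have h0 : s 0 = t 0 := by
      have h1 := congrArg (· % b) h
      simp only [Nat.add_mul_mod_self_left] at h1
      rwa [Nat.mod_eq_of_lt (hs 0), Nat.mod_eq_of_lt (ht 0)] at h1
    have h1 : code b (fun i : Fin (m + 1) => s i.succ) =
        code b (fun i : Fin (m + 1) => t i.succ) := by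
      rw [h0] at h
      exact Nat.eq_of_mul_eq_mul_left hb (Nat.add_left_cancel h)
    have h2 := ih (fun i => hs i.succ) (fun i => ht i.succ) h1
    funext i
    refine Fin.cases h0 (fun i => ?_) i
    exact congrFun h2 i

variable {m : ℕ}

/-- the substitution `x_a = z ^ ((D + 1) ^ a)` -/
noncomputable def crv (D : ℕ) (G : MvPolynomial (Fin (m + 1)) ℝ) : Polynomial ℝ :=
  aeval (fun a : Fin (m + 1) => (Polynomial.X : Polynomial ℝ) ^ (D + 1) ^ (a : ℕ)) G

theorem eval_crv (D : ℕ) (G : MvPolynomial (Fin (m + 1)) ℝ) (z : ℝ) :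
    (crv D G).eval z = eval (fun a : Fin (m + 1) => z ^ (D + 1) ^ (a : ℕ)) G := by
  have h := map_aeval (fun a : Fin (m + 1) => (Polynomial.X : Polynomial ℝ) ^ (D + 1) ^ (a : ℕ))
    (Polynomial.evalRingHom z) G
  rw [Polynomial.coe_evalRingHom] at h
  rw [crv, h, coe_eval₂Hom, eval₂_eq', eval_eq']
  refine Finset.sum_congr rfl fun s _ => ?_
  congr 1
  · simp
  · refine Finset.prod_congr rfl fun a _ => ?_
    simp

theorem crv_eq (D : ℕ) (G : MvPolynomial (Fin (m + 1)) ℝ) :
    crv D G = ∑ s ∈ G.support, Polynomial.C (coeff s G) * Polynomial.X ^ code (D + 1) s := by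
  rw [crv, aeval_def, eval₂_eq']
  refine Finset.sum_congr rfl fun s _ => ?_
  congr 1
  rw [code, ← Finset.prod_pow_eq_pow_sum]
  refine Finset.prod_congr rfl fun a _ => ?_
  rw [← pow_mul, mul_comm]

theorem digit_lt {D : ℕ} {s : Fin (m + 1) →₀ ℕ} (hs : s.degree ≤ D) (i : Fin (m + 1)) :
    s i < D + 1 := by
  have h1 : s i ≤ s.degree := by
    rw [Finsupp.degree_eq_sum]
    exact Finset.single_le_sum (f := fun i => s i) (fun _ _ => Nat.zero_le _) (Finset.mem_univ i)
  omega

theorem crv_ne_zero {D : ℕ} {G : MvPolynomial (Fin (m + 1)) ℝ} (hG : G ≠ 0)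
    (hD : G.totalDegree ≤ D) : crv D G ≠ 0 := by
  classical
  obtain ⟨s, hs⟩ := ne_zero_iff.1 hG
  have hs' : s ∈ G.support := mem_support_iff.2 hs
  intro h
  have h1 := congrArg (fun p => Polynomial.coeff p (code (D + 1) s)) h
  simp only [crv_eq, Polynomial.finsetSum_coeff, Polynomial.coeff_C_mul_X_pow,
    Polynomial.coeff_zero] at h1
  rw [Finset.sum_eq_single s] at h1
  · rw [if_pos rfl] at h1
    exact hs h1
  · intro t ht hts
    rw [if_neg]
    intro h2
    apply hts
    refine DFunLike.coe_injective ?_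
    exact (code_injOn (digit_lt ((le_totalDegree hs').trans hD))
      (digit_lt ((le_totalDegree ht).trans hD)) h2).symm
  · intro h2
    exact absurd hs' h2

theorem card_crv (D : ℕ) (G : MvPolynomial (Fin (m + 1)) ℝ) :
    (crv D G).support.card ≤ G.support.card := by
  classical
  rw [crv_eq]
  have h1 : (∑ s ∈ G.support, Polynomial.C (coeff s G) *
      Polynomial.X ^ code (D + 1) s).support ⊆ G.support.image
      fun s : Fin (m + 1) →₀ ℕ => code (D + 1) s := by
    intro n hn
    rw [Polynomial.mem_support_iff, Polynomial.finsetSum_coeff] at hn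
    obtain ⟨s, hs, h2⟩ := Finset.exists_ne_zero_of_sum_ne_zero hn
    rw [Polynomial.coeff_C_mul_X_pow] at h2
    rw [Finset.mem_image]
    refine ⟨s, hs, ?_⟩
    by_contra h3
    rw [if_neg (Ne.symm h3)] at h2
    exact h2 rfl
  exact (Finset.card_le_card h1).trans Finset.card_image_le

/-- **Powers do not lie on hypersurfaces of small degree.** -/
theorem gv {D P : ℕ} (t : Fin P → ℕ) (ht : Function.Injective t)
    (hP : ∀ G : MvPolynomial (Fin (m + 1)) ℝ, G.totalDegree ≤ D → G.support.card ≤ P)
    {F : MvPolynomial (Fin (m + 1)) ℝ} (hF : F ≠ 0) (hD : F.totalDegree ≤ D) :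
    ∃ j, eval (fun a : Fin (m + 1) => ((2 : ℝ) ^ (D + 1) ^ (a : ℕ)) ^ t j - 1) F ≠ 0 := by
  classical
  by_contra hcon
  push Not at hcon
  set G : MvPolynomial (Fin (m + 1)) ℝ := bind₁ (fun i => X i - C 1) F with hGdef
  have hGev : ∀ y : Fin (m + 1) → ℝ, eval y G = eval (fun i => y i - 1) F := by
    intro y
    have h1 : eval y G = eval (fun i => eval y (X i - C 1)) F := by
      rw [hGdef]
      exact eval₂Hom_bind₁ (RingHom.id ℝ) y (fun i => X i - C 1) F
    rw [h1]
    congr 1
    congr 1
    funext i
    simp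
  have hG0 : G ≠ 0 := by
    intro h
    apply hF
    refine MvPolynomial.funext fun y => ?_
    have h1 := hGev fun i => y i + 1
    rw [h] at h1
    simp only [add_sub_cancel_right] at h1
    rw [← h1, map_zero, map_zero]
  have hGD : G.totalDegree ≤ D := by
    rw [hGdef, bind₁, aeval_def, eval₂_eq']
    refine totalDegree_finsetSum_le fun s hs => ?_
    refine (totalDegree_mul _ _).trans ?_
    have h1 : (algebraMap ℝ (MvPolynomial (Fin (m + 1)) ℝ) (coeff s F)).totalDegree = 0 :=
      totalDegree_C _
    rw [h1, zero_add]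
    refine (totalDegree_finsetProd _ _).trans ?_
    calc ∑ i, ((X i - C 1 : MvPolynomial (Fin (m + 1)) ℝ) ^ s i).totalDegree ≤ ∑ i, s i := by
          refine Finset.sum_le_sum fun i _ => (totalDegree_pow _ _).trans ?_
          refine (Nat.mul_le_mul_left _ ?_).trans_eq (mul_one _)
          refine (totalDegree_sub _ _).trans (max_le ?_ ?_)
          · rw [totalDegree_X]
          · rw [totalDegree_C]
            exact Nat.zero_le _
      _ = s.degree := (Finsupp.degree_eq_sum s).symm
      _ ≤ D := (le_totalDegree hs).trans hD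
  have hne := crv_ne_zero hG0 hGD
  set Z : Finset ℝ := Finset.univ.image fun j : Fin P => (2 : ℝ) ^ t j with hZ
  have hcard : Z.card = P := by
    rw [hZ, Finset.card_image_of_injective, Finset.card_univ, Fintype.card_fin]
    intro i j hij
    exact ht (pow_right_injective₀ (by norm_num) (by norm_num) hij)
  have h1 := pos_roots_lt hne Z fun z hz => by
    obtain ⟨j, -, rfl⟩ := Finset.mem_image.1 hz
    refine ⟨by positivity, ?_⟩
    rw [eval_crv, hGev, ← hcon j]
    congr 1
    congr 1
    funext a
    rw [← pow_mul, ← pow_mul, mul_comm]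
  have h2 := (card_crv D G).trans (hP G hGD)
  omega

end Pool.Agent.Helper52.SB
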