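import Pool.Agent.Helper87.UN.Multi
import Pool.Agent.Helper52.SB.Orb
import Pool.Agent.Helper52.DV.DomZ
import Pool.Agent.Helper26.DV.Term

/-!
# The multi-time lemma, with constants which do not depend on the map
-/

set_option autoImplicit false

namespace Pool.Agent.Helper52.SB

open MvPolynomial
open Pool.Agent.Helper86.MQ (pm)
open Pool.Agent.Helper86.GT (eval_bind_iterate)
open Pool.Agent.Helper26.DV
open Pool.Agent.Helper52.DV
open Pool.Agent.Helper87.UN (map_bind_iterate bind_mem coeff_mem_of)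

variable {m : ℕ} {w : Fin (m + 1) → ℕ}

/-- the ring of polynomials in the coefficients and in several points -/
abbrev RR (m : ℕ) (w : Fin (m + 1) → ℕ) : Type _ := RC (VIdx m w) (Fin (m + 1))

/-- the field of fractions -/
abbrev QR (m : ℕ) (w : Fin (m + 1) → ℕ) : Type _ := FractionRing (RR m w)

/-- the variables of the coefficients -/
noncomputable def cX (k : VIdx m w) : RR m w := X (Sum.inl k)

/-- the generic map -/
noncomputable def ΦX (m : ℕ) (w : Fin (m + 1) → ℕ) (i : Fin (m + 1)) :
    MvPolynomial (Fin (m + 1)) (RR m w) := vP cX i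

/-- the generic map over the field of fractions -/
noncomputable def ΦF (m : ℕ) (w : Fin (m + 1) → ℕ) (i : Fin (m + 1)) :
    MvPolynomial (Fin (m + 1)) (QR m w) :=
  map (algebraMap (RR m w) (QR m w)) (ΦX m w i)

theorem map_vP' {R S : Type*} [CommRing R] [CommRing S] (f : R →+* S) (c : VIdx m w → R)
    (i : Fin (m + 1)) : map f (vP c i) = vP (fun k => f (c k)) i := by
  rw [vP, vP, map_sum]
  refine Finset.sum_congr rfl fun s _ => ?_
  rw [map_monomial]

theorem map_ΦX {K : Type*} [CommRing K] (c : VIdx m w → K) (x : ℕ → Fin (m + 1) → K)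
    (i : Fin (m + 1)) : map (ev c x) (ΦX m w i) = vP c i := by
  rw [ΦX, map_vP']
  congr 1
  funext k
  exact ev_inl c x k

instance charZero_QR : CharZero (QR m w) :=
  charZero_of_injective_algebraMap (IsFractionRing.injective (RR m w) (QR m w))

theorem deg_vP {R : Type*} [CommRing R] (c : VIdx m w → R) (i : Fin (m + 1)) :
    (vP c i).totalDegree ≤ w i := by
  classical
  rw [vP]
  refine totalDegree_finsetSum_le fun s _ => ?_
  refine (totalDegree_monomial_le _ _).trans ?_
  exact s.2

/-- Termination for the generic map. -/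
theorem term_generic (hw : ∀ i : Fin m, 1 ≤ w i.castSucc)
    (hw' : ∀ i : Fin m, w i.castSucc < w (Fin.last m)) (h0 : 1 ≤ w (Fin.last m))
    (F : MvPolynomial (Fin (m + 1)) (QR m w)) (hF : F ≠ 0) :
    ∃ k, coeff (Finsupp.single (Fin.last m) (((fun G => bind₁ (ΦF m w) G)^[k] F).totalDegree))
      ((fun G => bind₁ (ΦF m w) G)^[k] F) ≠ 0 := by
  set alg := algebraMap (RR m w) (QR m w) with halg
  have hinj : Function.Injective alg := IsFractionRing.injective _ _
  have hΦ : ΦF m w = vP fun k => alg (cX k) := by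
    funext i
    rw [ΦF, ΦX, map_vP']
  refine term (fun i => ⟨hw i, hw' i⟩) h0 (w := w) ?_ hF
  rw [hΦ]
  refine vdom_field hw hw' h0 (deg_vP _) ?_
  have h1 : (fun k : VIdx m w => coeff (k.2 : Fin (m + 1) →₀ ℕ)
      (vP (fun k => alg (cX k)) k.1)) = fun k => (alg.comp (rename Sum.inl :
        MvPolynomial (VIdx m w) ℤ →ₐ[ℤ] RR m w).toRingHom) (X k) := by
    funext k
    rw [coeff_vP, RingHom.comp_apply]
    congr 1
    exact (rename_X _ _).symm
  rw [h1, ← map_RZ]
  intro h
  rw [RingHom.comp_apply] at h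
  have h2 := hinj (h.trans (map_zero alg).symm)
  have h3 : (rename Sum.inl (GRZ hw h0) : RR m w) = 0 := h2
  exact GRZ_ne_zero hw h0 hw' (rename_injective _ Sum.inl_injective (h3.trans (map_zero _).symm))

/-- The dominated composition, over the ring of polynomials in the coefficients and in the blocks
`1, …, r`. -/
theorem exists_dom (hw : ∀ i : Fin m, 1 ≤ w i.castSucc)
    (hw' : ∀ i : Fin m, w i.castSucc < w (Fin.last m)) (h0 : 1 ≤ w (Fin.last m)) (r : ℕ)
    {H : RR m w} (hH : H ∈ supported ℤ (SC (VIdx m w) (Fin (m + 1)) (r + 1))) (hH0 : H ≠ 0) :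
    ∃ (k E : ℕ), ((fun G => bind₁ (ΦX m w) G)^[k] (spl (r + 1) H)).totalDegree ≤ E ∧
      coeff (Finsupp.single (Fin.last m) E) ((fun G => bind₁ (ΦX m w) G)^[k] (spl (r + 1) H)) ≠ 0 ∧
      ∀ s, coeff s ((fun G => bind₁ (ΦX m w) G)^[k] (spl (r + 1) H)) ∈
        supported ℤ (SC (VIdx m w) (Fin (m + 1)) r) := by
  classical
  set alg := algebraMap (RR m w) (QR m w) with halg
  have hinj : Function.Injective alg := IsFractionRing.injective _ _
  have h1 : map alg (spl (r + 1) H) ≠ 0 := by
    intro h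
    exact spl_ne_zero (r + 1) hH0 (map_injective alg hinj (by rw [h, map_zero]))
  obtain ⟨k, hk⟩ := term_generic hw hw' h0 _ h1
  have h2 : (fun G => bind₁ (ΦF m w) G)^[k] (map alg (spl (r + 1) H)) =
      map alg ((fun G => bind₁ (ΦX m w) G)^[k] (spl (r + 1) H)) :=
    (map_bind_iterate alg (ΦX m w) k _).symm
  set G := (fun G => bind₁ (ΦX m w) G)^[k] (spl (r + 1) H) with hG
  rw [h2] at hk
  refine ⟨k, (map alg G).totalDegree, ?_, ?_, ?_⟩
  · refine Finset.sup_le fun s hs => ?_
    refine le_totalDegree (p := map alg G) ?_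
    rw [mem_support_iff, coeff_map]
    intro h
    exact mem_support_iff.1 hs (hinj (by rw [h, map_zero]))
  · intro h
    apply hk
    rw [coeff_map, h, map_zero]
  · obtain ⟨T, hT⟩ := coeff_mem_of (σ := Fin (m + 1))
      (supported ℤ (SC (VIdx m w) (Fin (m + 1)) r)).toSubring
    have hmem : G ∈ T := by
      have hΨ : ∀ i, ΦX m w i ∈ T := by
        intro i
        rw [hT]
        intro s
        by_cases hs : s.degree ≤ w i
        · have h3 := coeff_vP (cX : VIdx m w → RR m w) i ⟨s, hs⟩
          change coeff s (ΦX m w i) = _ at h3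
          rw [h3]
          exact X_mem_supported.2 (inl_mem_SC r _)
        · have h3 := coeff_vP_of_gt (cX : VIdx m w → RR m w) i hs
          change coeff s (ΦX m w i) = _ at h3
          rw [h3]
          exact Subring.zero_mem _
      have hbase : spl (r + 1) H ∈ T := (hT _).2 fun s => coeff_spl_mem r hH s
      have : ∀ j, (fun G => bind₁ (ΦX m w) G)^[j] (spl (r + 1) H) ∈ T := by
        intro j
        induction j with
        | zero => exact hbase
        | succ j ih =>
          rw [Function.iterate_succ_apply']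
          exact bind_mem T _ hT hΨ ih
      exact this k
    exact (hT G).1 hmem

theorem iter_step {K : Type*} [Field K] {v : AbsoluteValue K ℝ} {B : ℝ} {c : VIdx m w → K}
    {x : ℕ → Fin (m + 1) → K} (hx : Orc v B c x) (N k : ℕ) :
    (pm (vP c))^[k] (x N) = x (N + k) := by
  induction k with
  | zero => rfl
  | succ k ih =>
    rw [Function.iterate_succ_apply', ih, ← add_assoc, hx.step]

/-- **The multi-time lemma.** -/
theorem multi {K : Type*} [Field K] (hw : ∀ i : Fin m, 1 ≤ w i.castSucc)
    (hw' : ∀ i : Fin m, w i.castSucc < w (Fin.last m)) (h0 : 1 ≤ w (Fin.last m)) (r : ℕ) :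
    ∀ H : RR m w, H ∈ supported ℤ (SC (VIdx m w) (Fin (m + 1)) r) → H ≠ 0 →
      ∃ l₀ : RR m w, l₀ ∈ supported ℤ (SC (VIdx m w) (Fin (m + 1)) 0) ∧ l₀ ≠ 0 ∧
      ∃ g C : ℕ, ∀ (v : AbsoluteValue K ℝ) (B : ℝ) (c : VIdx m w → K)
        (x : ℕ → Fin (m + 1) → K), Orc v B c x → (∀ a : ℤ, v (a : K) ≤ |(a : ℝ)|) →
        1 ≤ v (ev c (fun _ => 0) l₀) * B → ∀ n : ℕ → ℕ,
        (∀ j, j < r → n j + g ≤ n (j + 1)) →
          1 ≤ v (ev c (fun j => x (n j)) H) * v (x (n r) (Fin.last m)) ^ C := by
  classical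
  induction r with
  | zero =>
    intro H hH hH0
    refine ⟨H, hH, hH0, 0, 1, fun v B c x hx _ hl n _ => ?_⟩
    have h1 : ev c (fun j => x (n j)) H = ev c (fun _ => 0) H :=
      ev_ext hH fun j hj hj' => absurd hj (by omega)
    rw [h1, pow_one]
    exact hl.trans (mul_le_mul_of_nonneg_left (hx.big _) (v.nonneg _))
  | succ r ih =>
    intro H hH hH0
    obtain ⟨k, E, hdeg, hl, hcoef⟩ := exists_dom hw hw' h0 r hH hH0
    set G := (fun G => bind₁ (ΦX m w) G)^[k] (spl (r + 1) H) with hG
    set l := coeff (Finsupp.single (Fin.last m) E) G with hldef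
    obtain ⟨l₀, hl₀, hl₀0, g₁, C₁, hlow⟩ := ih l (hcoef _) hl
    choose Cf hCf using fun s => upper (K := K) r (hcoef s)
    obtain ⟨c₂, hc₂⟩ := pow_unbounded_of_one_lt (G.support.card : ℝ) one_lt_two
    set C₂ : ℕ := c₂ + ∑ s ∈ G.support, Cf s with hC₂
    refine ⟨l₀, hl₀, hl₀0, g₁ + (C₁ + C₂ + 2) + k + 1, C₁ + 1,
      fun v B c x hx hv hlB n hn => ?_⟩
    set X := v (x (n r) (Fin.last m)) with hX
    have hX1 : 1 ≤ X := hx.one_le _
    have h2X : 2 ≤ X := hx.two_le _
    have hBX : B ≤ X := hx.big _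
    have hB0 : 0 ≤ B := zero_le_two.trans hx.two
    have hn' : ∀ j, j < r → n j + g₁ ≤ n (j + 1) := fun j hj => by
      have := hn j (by omega)
      omega
    have hlow' := hlow v B c x hx hv hlB n hn'
    set e := ev c (fun j => x (n j)) with he
    -- the index
    have hnr := hn r (by omega)
    obtain ⟨N, hN⟩ : ∃ N, n (r + 1) = N + 1 + k := ⟨n (r + 1) - k - 1, by omega⟩
    have hNr : n r + (C₁ + C₂ + 2) ≤ N := by omega
    -- the polynomial at the points
    have hdeg' : (map e G).totalDegree ≤ E :=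
      (Finset.sup_mono (support_map_subset _ _)).trans hdeg
    have hsum : ∑ s ∈ (map e G).support, v (coeff s (map e G)) ≤ X ^ C₂ := by
      calc ∑ s ∈ (map e G).support, v (coeff s (map e G))
          ≤ ∑ s ∈ G.support, v (coeff s (map e G)) :=
            Finset.sum_le_sum_of_subset_of_nonneg (support_map_subset _ _)
              fun s _ _ => v.nonneg _
        _ ≤ ∑ s ∈ G.support, X ^ (∑ s ∈ G.support, Cf s) := by
            refine Finset.sum_le_sum fun s hs => ?_
            rw [coeff_map]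
            refine (hCf s v B c x hx hv n fun j hj => by have := hn' j hj; omega).trans ?_
            exact pow_le_pow_right₀ hX1
              (Finset.single_le_sum (f := Cf) (fun _ _ => Nat.zero_le _) hs)
        _ = (G.support.card : ℝ) * X ^ (∑ s ∈ G.support, Cf s) := by
            rw [Finset.sum_const, nsmul_eq_mul]
        _ ≤ X ^ c₂ * X ^ (∑ s ∈ G.support, Cf s) := by
            refine mul_le_mul_of_nonneg_right ?_ (by positivity)
            exact hc₂.le.trans (pow_le_pow_left₀ zero_le_two h2X _)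
        _ = X ^ C₂ := by rw [← pow_add]
    have hg : coeff (Finsupp.single (Fin.last m) E) (map e G) = e l := coeff_map _ _ _
    have hXN : X ^ (C₁ + C₂ + 2) ≤ v (x N (Fin.last m)) :=
      (hx.pow_le (n r) _).trans (hx.mono hNr)
    have hS : 2 * B * ∑ s ∈ (map e G).support, v (coeff s (map e G)) ≤
        v (coeff (Finsupp.single (Fin.last m) E) (map e G)) * v (x N (Fin.last m)) := by
      rw [hg]
      have h3 : 2 * B ≤ X ^ 2 := by nlinarith
      calc 2 * B * ∑ s ∈ (map e G).support, v (coeff s (map e G)) ≤ X ^ 2 * X ^ C₂ :=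
            mul_le_mul h3 hsum (Finset.sum_nonneg fun _ _ => v.nonneg _) (by positivity)
        _ = X ^ 2 * X ^ C₂ * 1 := (mul_one _).symm
        _ ≤ X ^ 2 * X ^ C₂ * (v (e l) * X ^ C₁) :=
            mul_le_mul_of_nonneg_left hlow' (by positivity)
        _ = v (e l) * X ^ (C₁ + C₂ + 2) := by
            rw [pow_add, pow_add]
            ring
        _ ≤ _ := mul_le_mul_of_nonneg_left hXN (v.nonneg _)
    have hdom := hx.dom N hdeg' hS
    rw [hg] at hdom
    have hev : eval (x (N + 1)) (map e G) = e H := by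
      rw [hG, map_bind_iterate e (ΦX m w) k]
      have h1 : (fun i => map e (ΦX m w i)) = vP c := by
        funext i
        exact map_ΦX c _ i
      rw [h1, eval_bind_iterate, iter_step hx, ← hN]
      exact ev_spl c (fun j => x (n j)) (r + 1) H
    rw [hev] at hdom
    have hXE : 1 ≤ v (x (N + 1) (Fin.last m)) ^ E := one_le_pow₀ (hx.one_le _)
    have h1 : v (e l) ≤ 2 * v (e H) := by
      refine le_trans ?_ hdom
      exact le_mul_of_one_le_right (v.nonneg _) hXE
    have hXr : X ≤ v (x (n (r + 1)) (Fin.last m)) := hx.mono (by omega)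
    calc (1 : ℝ) ≤ v (e l) * X ^ C₁ := hlow'
      _ ≤ (2 * v (e H)) * X ^ C₁ := mul_le_mul_of_nonneg_right h1 (by positivity)
      _ ≤ (X * v (e H)) * X ^ C₁ :=
          mul_le_mul_of_nonneg_right (mul_le_mul_of_nonneg_right h2X (v.nonneg _))
            (by positivity)
      _ = v (e H) * X ^ (C₁ + 1) := by
          rw [pow_add]
          ring
      _ ≤ _ := mul_le_mul_of_nonneg_left (pow_le_pow_left₀ (by linarith) hXr _) (v.nonneg _)

end Pool.Agent.Helper52.SB
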