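import Pool.Agent.Helper52.SB.Gv
import Pool.Agent.Helper52.SB.Multi

/-!
# The determinants of the patterns
-/

set_option autoImplicit false

namespace Pool.Agent.Helper52.SB

open MvPolynomial
open Pool.Agent.Helper86.MQ (pm)
open Pool.Agent.Helper26.DV

variable {m : ℕ} {w : Fin (m + 1) → ℕ}

section hom

variable {R S : Type*} [CommRing R] [CommRing S] {ι : Type*}

theorem hom_eval (f : R →+* S) (y : ι → R) (p : MvPolynomial ι R) :
    f (eval y p) = eval (fun i => f (y i)) (map f p) := by
  rw [eval_map]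
  have h := eval₂_comp_left f (RingHom.id R) y p
  rw [RingHom.comp_id] at h
  exact h

theorem hom_pm (f : R →+* S) (Ψ : ι → MvPolynomial ι R) (y : ι → R) (k : ℕ) :
    (fun i => f ((pm Ψ)^[k] y i)) = (pm fun i => map f (Ψ i))^[k] fun i => f (y i) := by
  induction k with
  | zero => rfl
  | succ k ih =>
    rw [Function.iterate_succ_apply', Function.iterate_succ_apply', ← ih]
    funext i
    rw [pm, pm, hom_eval]

theorem eval_mem [Finite ι] (A : Subring R) {y : ι → R} (hy : ∀ i, y i ∈ A) {p : MvPolynomial ι R}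
    (hp : ∀ s, coeff s p ∈ A) : eval y p ∈ A := by
  rw [eval_eq]
  exact A.sum_mem fun s _ => A.mul_mem (hp s) (A.prod_mem fun i _ => A.pow_mem (hy i) _)

theorem pm_mem [Finite ι] (A : Subring R) {Ψ : ι → MvPolynomial ι R}
    (hΨ : ∀ i s, coeff s (Ψ i) ∈ A) {y : ι → R} (hy : ∀ i, y i ∈ A) (k : ℕ) (i : ι) :
    (pm Ψ)^[k] y i ∈ A := by
  induction k generalizing i with
  | zero => exact hy i
  | succ k ih =>
    rw [Function.iterate_succ_apply']
    exact eval_mem A ih (hΨ i)

end hom

/-- the point of the block `b`; the block `0` is the origin -/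
noncomputable def YX (m : ℕ) (w : Fin (m + 1) → ℕ) (b : ℕ) (a : Fin (m + 1)) : RR m w :=
  if b = 0 then 0 else X (Sum.inr (b, a))

theorem coeff_ΦX_mem (r : ℕ) (i : Fin (m + 1)) (s : Fin (m + 1) →₀ ℕ) :
    coeff s (ΦX m w i) ∈ supported ℤ (SC (VIdx m w) (Fin (m + 1)) r) := by
  by_cases hs : s.degree ≤ w i
  · have h3 := coeff_vP (cX : VIdx m w → RR m w) i ⟨s, hs⟩
    change coeff s (ΦX m w i) = _ at h3
    rw [h3]
    exact X_mem_supported.2 (inl_mem_SC r _)
  · have h3 := coeff_vP_of_gt (cX : VIdx m w → RR m w) i hs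
    change coeff s (ΦX m w i) = _ at h3
    rw [h3]
    exact Subalgebra.zero_mem _

/-- the matrix of a pattern -/
noncomputable def patM (w : Fin (m + 1) → ℕ) {P : ℕ} (e : Fin P → (Fin (m + 1) →₀ ℕ))
    (b g : Fin P → ℕ) : Matrix (Fin P) (Fin P) (RR m w) :=
  Matrix.of fun j i => ∏ a, ((pm (ΦX m w))^[g j] (YX m w (b j)) a) ^ e i a

variable {P : ℕ} (e : Fin P → (Fin (m + 1) →₀ ℕ)) (b g : Fin P → ℕ)

theorem ev_pat {S : Type*} [CommRing S] (c : VIdx m w → S) (x : ℕ → Fin (m + 1) → S) :
    ev c x (patM w e b g).det = (Matrix.of fun (j i : Fin P) =>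
      ∏ a, ((pm (vP c))^[g j] (if b j = 0 then 0 else x (b j)) a) ^ e i a).det := by
  rw [RingHom.map_det]
  congr 1
  ext j i
  rw [RingHom.mapMatrix_apply, Matrix.map_apply, patM, Matrix.of_apply, Matrix.of_apply, map_prod]
  refine Finset.prod_congr rfl fun a _ => ?_
  rw [map_pow]
  congr 1
  have h1 := congrFun (hom_pm (ev c x) (ΦX m w) (YX m w (b j)) (g j)) a
  rw [h1]
  have h2 : (fun i => map (ev c x) (ΦX m w i)) = vP c := by
    funext i
    exact map_ΦX c x i
  have h3 : (fun i => ev c x (YX m w (b j) i)) = if b j = 0 then 0 else x (b j) := by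
    funext i
    rw [YX]
    split_ifs
    · rw [map_zero]
      rfl
    · rw [ev_inr]
  rw [h2, h3]

theorem pat_mem {r : ℕ} (hb : ∀ j, b j ≤ r) :
    (patM w e b g).det ∈ supported ℤ (SC (VIdx m w) (Fin (m + 1)) r) := by
  classical
  have h1 : ∀ j i, patM w e b g j i ∈ supported ℤ (SC (VIdx m w) (Fin (m + 1)) r) := by
    intro j i
    rw [patM, Matrix.of_apply]
    refine Subalgebra.prod_mem _ fun a _ => Subalgebra.pow_mem _ ?_ _
    refine pm_mem (supported ℤ (SC (VIdx m w) (Fin (m + 1)) r)).toSubring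
      (fun i s => coeff_ΦX_mem r i s) (fun a => ?_) (g j) a
    rw [YX]
    split_ifs with h0
    · exact Subring.zero_mem _
    · exact X_mem_supported.2 (inr_mem_SC (Nat.one_le_iff_ne_zero.2 h0) (hb j))
  rw [Matrix.det_apply']
  refine Subalgebra.sum_mem _ fun σ _ => Subalgebra.mul_mem _ ?_
    (Subalgebra.prod_mem _ fun i _ => h1 _ _)
  exact Subalgebra.intCast_mem _ _

/-- the diagonal affine map with the fixed point `(-1, …, -1)` and the multipliers `l` -/
noncomputable def dm (l : Fin (m + 1) → ℝ) (a : Fin (m + 1)) : MvPolynomial (Fin (m + 1)) ℝ :=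
  C (l a) * X a + C (l a - 1)

theorem pm_dm (l : Fin (m + 1) → ℝ) (N k : ℕ) :
    (pm (dm l))^[k] (fun a => l a ^ N - 1) = fun a => l a ^ (N + k) - 1 := by
  induction k with
  | zero => rfl
  | succ k ih =>
    rw [Function.iterate_succ_apply', ih]
    funext a
    rw [pm, dm, map_add, map_mul, eval_C, eval_X, eval_C, ← add_assoc, pow_succ]
    ring

/-- The determinant of a pattern does not vanish. -/
theorem pat_ne_zero (hw : ∀ i, 1 ≤ w i) {D : ℕ}
    (hP : ∀ G : MvPolynomial (Fin (m + 1)) ℝ, G.totalDegree ≤ D → G.support.card ≤ P)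
    (he : Function.Injective e) (heD : ∀ i, (e i).degree ≤ D)
    (hbg : ∀ i j, b i = b j → g i = g j → i = j) : (patM w e b g).det ≠ 0 := by
  classical
  intro h
  set l : Fin (m + 1) → ℝ := fun a => (2 : ℝ) ^ (D + 1) ^ (a : ℕ) with hl
  obtain ⟨G', hG'⟩ : ∃ G', ∀ j, g j < G' := ⟨∑ j, g j + 1, fun j =>
    Nat.lt_succ_of_le (Finset.single_le_sum (f := g) (fun _ _ => Nat.zero_le _)
      (Finset.mem_univ j))⟩
  set t : Fin P → ℕ := fun j => G' * b j + g j with htdef
  have ht : Function.Injective t := by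
    intro i j hij
    simp only [htdef] at hij
    have h1 : b i = b j := by
      have h2 := congrArg (· / G') hij
      have hG0 : 0 < G' := lt_of_le_of_lt (Nat.zero_le _) (hG' i)
      simp only [Nat.mul_add_div hG0] at h2
      rwa [Nat.div_eq_of_lt (hG' i), Nat.div_eq_of_lt (hG' j), add_zero, add_zero] at h2
    refine hbg i j h1 ?_
    rw [h1] at hij
    exact Nat.add_left_cancel hij
  set c : VIdx m w → ℝ := fun k => coeff (k.2 : Fin (m + 1) →₀ ℕ) (dm l k.1) with hc
  have hvP : vP c = dm l := by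
    rw [hc]
    refine vP_coeff (dm l) fun i s hs => ?_
    by_contra h1
    apply hs
    refine (le_totalDegree (mem_support_iff.2 h1)).trans ?_
    refine (totalDegree_add _ _).trans (max_le ?_ ?_)
    · refine (totalDegree_mul _ _).trans ?_
      rw [totalDegree_C, totalDegree_X, zero_add]
      exact hw i
    · rw [totalDegree_C]
      exact Nat.zero_le _
  have h1 := congrArg (ev c (fun j a => l a ^ (G' * j) - 1)) h
  rw [ev_pat, map_zero, hvP] at h1
  have h2 : ∀ j : Fin P, (pm (dm l))^[g j] (if b j = 0 then 0 else fun a => l a ^ (G' * b j) - 1) =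
      fun a => l a ^ t j - 1 := by
    intro j
    have h3 : (if b j = 0 then (0 : Fin (m + 1) → ℝ) else fun a => l a ^ (G' * b j) - 1) =
        fun a => l a ^ (G' * b j) - 1 := by
      split_ifs with h0
      · funext a
        rw [h0, mul_zero, pow_zero, sub_self]
        rfl
      · rfl
    rw [h3, pm_dm]
  obtain ⟨u, hu0, hu⟩ := Matrix.exists_mulVec_eq_zero_iff.2 h1
  set F : MvPolynomial (Fin (m + 1)) ℝ := ∑ i, monomial (e i) (u i) with hF
  have hco : ∀ i, coeff (e i) F = u i := by
    intro i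
    rw [hF, coeff_sum, Finset.sum_eq_single i]
    · rw [coeff_monomial, if_pos rfl]
    · intro j _ hj
      rw [coeff_monomial, if_neg fun h => hj (he h)]
    · intro h
      exact absurd (Finset.mem_univ _) h
  have hF0 : F ≠ 0 := by
    intro h
    apply hu0
    funext i
    rw [← hco i, h, coeff_zero]
    rfl
  have hFD : F.totalDegree ≤ D := by
    rw [hF]
    refine totalDegree_finsetSum_le fun i _ => ?_
    exact (totalDegree_monomial_le _ _).trans (heD i)
  obtain ⟨j, hj⟩ := gv t ht hP hF0 hFD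
  apply hj
  have h4 := congrFun hu j
  rw [Matrix.mulVec, dotProduct, Pi.zero_apply] at h4
  rw [← h4, hF, map_sum]
  refine Finset.sum_congr rfl fun i _ => ?_
  rw [eval_monomial, Finsupp.prod_fintype _ _ (fun _ => pow_zero _), Matrix.of_apply, h2 j, mul_comm]

end Pool.Agent.Helper52.SB
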