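import Pool.Agent.Helper52.DV.Slice

/-!
# Small values of integral polynomials after triangular affine substitutions
-/

set_option autoImplicit false

namespace Pool.Agent.Helper52.SB

open MvPolynomial
open Pool.Agent.Helper52.DV (Iz boxZ slice card_small)

variable {J : Type*} [DecidableEq J]

/-- a polynomial as a polynomial in the variable `k` -/
noncomputable def splV (k : J) : MvPolynomial J ℤ →ₐ[ℤ] Polynomial (MvPolynomial J ℤ) :=
  aeval fun j => if j = k then Polynomial.X else Polynomial.C (X j)

theorem splV_X (k j : J) : splV k (X j) = if j = k then Polynomial.X else Polynomial.C (X j) := by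
  rw [splV, aeval_X]

theorem splV_back (k : J) (l : MvPolynomial J ℤ) : (splV k l).eval (X k) = l := by
  have h : (Polynomial.evalRingHom (X k)).comp (splV k).toRingHom = RingHom.id _ := by
    refine MvPolynomial.ringHom_ext' (RingHom.ext_int _ _) fun j => ?_
    change (splV k (X j)).eval (X k) = X j
    rw [splV_X]
    split_ifs with h
    · rw [Polynomial.eval_X, h]
    · rw [Polynomial.eval_C]
  exact RingHom.congr_fun h l

theorem splV_ne_zero (k : J) {l : MvPolynomial J ℤ} (hl : l ≠ 0) : splV k l ≠ 0 := by
  intro h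
  apply hl
  rw [← splV_back k l, h, Polynomial.eval_zero]

theorem splV_eval (k : J) (y : J → ℂ) (l : MvPolynomial J ℤ) :
    ((splV k l).map ((aeval y : MvPolynomial J ℤ →ₐ[ℤ] ℂ) : MvPolynomial J ℤ →+* ℂ)).eval (y k) =
      aeval y l := by
  have h : ((Polynomial.evalRingHom (y k)).comp (Polynomial.mapRingHom
      ((aeval y : MvPolynomial J ℤ →ₐ[ℤ] ℂ) : MvPolynomial J ℤ →+* ℂ))).comp
      (splV k).toRingHom = ((aeval y : MvPolynomial J ℤ →ₐ[ℤ] ℂ) : MvPolynomial J ℤ →+* ℂ) := by
    refine MvPolynomial.ringHom_ext' (RingHom.ext_int _ _) fun j => ?_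
    change ((splV k (X j)).map _).eval (y k) = aeval y (X j)
    rw [splV_X, aeval_X]
    split_ifs with h
    · rw [Polynomial.map_X, Polynomial.eval_X, h]
    · rw [Polynomial.map_C, Polynomial.eval_C]
      exact aeval_X _ _
  exact RingHom.congr_fun h l

/-- the coefficients do not contain the variable `k` -/
theorem splV_coeff (k : J) (l : MvPolynomial J ℤ) (n : ℕ) :
    (splV k l).coeff n ∈ supported ℤ ((l.vars : Set J) \ {k}) := by
  have h1 : l ∈ supported ℤ (l.vars : Set J) := mem_supported_vars l
  have h2 : ∀ (S : Set J) (p : MvPolynomial J ℤ), p ∈ supported ℤ S →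
      ∀ n, (splV k p).coeff n ∈ supported ℤ (S \ {k}) := by
    intro S p hp
    rw [supported_eq_adjoin_X] at hp
    induction hp using Algebra.adjoin_induction with
    | mem x hx =>
      obtain ⟨j, hj, rfl⟩ := hx
      intro n
      rw [splV_X]
      split_ifs with h
      · rw [Polynomial.coeff_X]
        split_ifs
        · exact Subalgebra.one_mem _
        · exact Subalgebra.zero_mem _
      · rw [Polynomial.coeff_C]
        split_ifs
        · exact X_mem_supported.2 ⟨hj, h⟩
        · exact Subalgebra.zero_mem _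
    | algebraMap a =>
      intro n
      rw [AlgHom.commutes, Polynomial.algebraMap_apply, Polynomial.coeff_C]
      split_ifs
      · exact Subalgebra.algebraMap_mem _ a
      · exact Subalgebra.zero_mem _
    | add x y _ _ hx hy =>
      intro n
      rw [map_add, Polynomial.coeff_add]
      exact Subalgebra.add_mem _ (hx n) (hy n)
    | mul x y _ _ hx hy =>
      intro n
      rw [map_mul, Polynomial.coeff_mul]
      exact Subalgebra.sum_mem _ fun q _ => Subalgebra.mul_mem _ (hx _) (hy _)
  exact h2 _ l h1 n

theorem aeval_congr_vars {y y' : J → ℂ} {p : MvPolynomial J ℤ} (h : ∀ j ∈ p.vars, y j = y' j) :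
    aeval y p = aeval y' p := by
  rw [aeval_def, aeval_def]
  apply eval₂_congr
  intro v s hv hs
  exact h v ((mem_vars_iff_mem_support v).2 ⟨s, mem_support_iff.2 hs, hv⟩)

/-- `T` is a triangular affine substitution -/
structure Tri (rk : J → ℕ) (T : (J → ℤ) → J → ℂ) : Prop where
  ne : ∀ c k₁ u k, k ≠ k₁ → rk k₁ ≤ rk k → T (Function.update c k₁ u) k = T c k
  eq : ∀ c k₁ (u : ℤ), T (Function.update c k₁ u) k₁ = T c k₁ + ((u : ℂ) - (c k₁ : ℂ))

/-- **Small values.** -/
theorem small_values [Fintype J] (rk : J → ℕ) (n : ℕ) : ∀ l : MvPolynomial J ℤ, l ≠ 0 →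
    l.vars.card ≤ n → ∃ C : ℕ, ∀ T : (J → ℤ) → J → ℂ, Tri rk T → ∀ (B : ℕ)
      [DecidablePred fun c : J → ℤ => ‖aeval (T c) l‖ < 1],
      (((boxZ J B).filter fun c => ‖aeval (T c) l‖ < 1).card : ℝ) * (2 * B + 1) ≤
        C * (boxZ J B).card := by
  classical
  induction n with
  | zero =>
    intro l hl hv
    have h1 : l.vars = ∅ := Finset.card_eq_zero.1 (Nat.le_zero.1 hv)
    have h2 : l ∈ supported ℤ (∅ : Set J) := by
      have := mem_supported_vars l
      rwa [h1, Finset.coe_empty] at this
    rw [supported_empty] at h2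
    obtain ⟨a, ha⟩ := Algebra.mem_bot.1 h2
    have ha0 : a ≠ 0 := by
      rintro rfl
      exact hl (by rw [← ha, map_zero])
    refine ⟨0, fun T _ B _ => ?_⟩
    rw [Finset.filter_eq_empty_iff.2]
    · simp
    · intro c _
      rw [not_lt, ← ha, AlgHom.commutes]
      have h3 : (algebraMap ℤ ℂ) a = (a : ℂ) := rfl
      rw [h3, Complex.norm_intCast]
      have h4 : 1 ≤ |a| := Int.one_le_abs ha0
      exact_mod_cast h4
  | succ n ih =>
    intro l hl hv
    rcases l.vars.eq_empty_or_nonempty with h0 | hne
    · exact ih l hl (by rw [h0]; simp)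
    obtain ⟨k₁, hk₁, hmin⟩ := l.vars.exists_min_image rk hne
    set f := splV k₁ l with hf
    have hf0 : f ≠ 0 := splV_ne_zero k₁ hl
    have hvars : ∀ i, (f.coeff i).vars ⊆ l.vars.erase k₁ := by
      intro i j hj
      have h1 := splV_coeff k₁ l i
      rw [mem_supported] at h1
      have h2 := h1 hj
      exact Finset.mem_erase.2 ⟨fun h => h2.2 h, h2.1⟩
    have hcard : (f.leadingCoeff).vars.card ≤ n := by
      refine (Finset.card_le_card (hvars _)).trans ?_
      rw [Finset.card_erase_of_mem hk₁]
      omega
    obtain ⟨C, hC⟩ := ih f.leadingCoeff (Polynomial.leadingCoeff_ne_zero.2 hf0) hcard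
    refine ⟨C + 3 * f.natDegree, fun T hT B _ => ?_⟩
    have hinv : ∀ (c : J → ℤ) (u : ℤ) (i : ℕ),
        aeval (T (Function.update c k₁ u)) (f.coeff i) = aeval (T c) (f.coeff i) := by
      intro c u i
      refine aeval_congr_vars fun j hj => ?_
      have h1 := Finset.mem_erase.1 (hvars i hj)
      exact hT.ne c k₁ u j h1.1 (hmin j h1.2)
    have hsub : ((boxZ J B).filter fun c => ‖aeval (T c) l‖ < 1) ⊆
        ((boxZ J B).filter fun c => ‖aeval (T c) f.leadingCoeff‖ < 1) ∪
        ((boxZ J B).filter fun c => 1 ≤ ‖aeval (T c) f.leadingCoeff‖ ∧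
          ‖aeval (T c) l‖ < 1) := by
      intro c hc
      rw [Finset.mem_filter] at hc
      rw [Finset.mem_union, Finset.mem_filter, Finset.mem_filter]
      by_cases h : ‖aeval (T c) f.leadingCoeff‖ < 1
      · exact Or.inl ⟨hc.1, h⟩
      · exact Or.inr ⟨hc.1, not_lt.1 h, hc.2⟩
    have h2 : ((((boxZ J B).filter fun c => 1 ≤ ‖aeval (T c) f.leadingCoeff‖ ∧
          ‖aeval (T c) l‖ < 1)).card : ℝ) * (2 * B + 1) ≤
        (3 * f.natDegree) * (boxZ J B).card := by
      refine slice (Finset.filter_subset _ _) k₁ _ fun c _ => ?_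
      by_cases hlc : 1 ≤ ‖aeval (T c) f.leadingCoeff‖
      · set φ : MvPolynomial J ℤ →+* ℂ :=
          ((aeval (T c) : MvPolynomial J ℤ →ₐ[ℤ] ℂ) : MvPolynomial J ℤ →+* ℂ) with hφ
        set h : Polynomial ℂ := f.map φ with hh
        set g : Polynomial ℂ := h.comp (Polynomial.X + Polynomial.C (T c k₁ - (c k₁ : ℂ))) with hg
        have hφl : φ f.leadingCoeff ≠ 0 := by
          intro h1
          rw [show aeval (T c) f.leadingCoeff = φ f.leadingCoeff from rfl, h1, norm_zero] at hlc
          linarith
        have hdeg : h.natDegree = f.natDegree :=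
          Polynomial.natDegree_map_of_leadingCoeff_ne_zero φ hφl
        have hlch : h.leadingCoeff = φ f.leadingCoeff :=
          Polynomial.leadingCoeff_map_of_leadingCoeff_ne_zero φ hφl
        have hXd : (Polynomial.X + Polynomial.C (T c k₁ - (c k₁ : ℂ))).natDegree = 1 :=
          Polynomial.natDegree_X_add_C _
        have hgd : g.natDegree = f.natDegree := by
          rw [hg, Polynomial.natDegree_comp, hXd, mul_one, hdeg]
        have hgl : g.leadingCoeff = φ f.leadingCoeff := by
          rw [hg, Polynomial.leadingCoeff_comp (by rw [hXd]; exact one_ne_zero),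
            Polynomial.leadingCoeff_X_add_C, one_pow, mul_one, hlch]
        have h3 := card_small g 1 zero_le_one ((Iz B).filter fun u =>
          Function.update c k₁ u ∈ (boxZ J B).filter fun c =>
            1 ≤ ‖aeval (T c) f.leadingCoeff‖ ∧ ‖aeval (T c) l‖ < 1) (by
          intro u hu
          have h4 := (Finset.mem_filter.1 (Finset.mem_filter.1 hu).2).2.2
          have h5 : aeval (T (Function.update c k₁ u)) l = g.eval (u : ℂ) := by
            rw [← splV_eval k₁ (T (Function.update c k₁ u)) l, hg, Polynomial.eval_comp,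
              Polynomial.eval_add, Polynomial.eval_X, Polynomial.eval_C, hT.eq]
            have h6 : (splV k₁ l).map ((aeval (T (Function.update c k₁ u)) :
                MvPolynomial J ℤ →ₐ[ℤ] ℂ) : MvPolynomial J ℤ →+* ℂ) = h := by
              ext i
              rw [hh, Polynomial.coeff_map, Polynomial.coeff_map]
              exact hinv c u i
            rw [h6]
            congr 1
            ring
          rw [← h5, one_pow, mul_one, hgl]
          exact lt_of_lt_of_le h4 hlc)
        rw [hgd] at h3
        refine h3.trans_eq ?_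
        ring
      · rw [Finset.filter_eq_empty_iff.2, Finset.card_empty, Nat.cast_zero]
        · positivity
        · intro u _ hu
          have h4 := (Finset.mem_filter.1 hu).2.1
          have h5 : aeval (T (Function.update c k₁ u)) f.leadingCoeff =
              aeval (T c) f.leadingCoeff := hinv c u _
          rw [h5] at h4
          exact hlc h4
    have h3 : (((boxZ J B).filter fun c => ‖aeval (T c) l‖ < 1).card : ℝ) ≤
        (((boxZ J B).filter fun c => ‖aeval (T c) f.leadingCoeff‖ < 1).card : ℝ) +
        ((((boxZ J B).filter fun c => 1 ≤ ‖aeval (T c) f.leadingCoeff‖ ∧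
          ‖aeval (T c) l‖ < 1)).card : ℝ) := by
      exact_mod_cast (Finset.card_le_card hsub).trans (Finset.card_union_le _ _)
    have h4 := hC T hT B
    have hB1 : (0 : ℝ) ≤ 2 * B + 1 := by positivity
    refine (mul_le_mul_of_nonneg_right h3 hB1).trans ?_
    rw [add_mul]
    push_cast
    linarith

end Pool.Agent.Helper52.SB
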