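import Pool.Agent.Helper52.DV.ZBox
import Pool.Agent.Helper52.SB.SV

/-!
# Translations
-/

set_option autoImplicit false

namespace Pool.Agent.Helper52.SB

open MvPolynomial
open Pool.Agent.Helper86.MQ (pm)
open Pool.Agent.Helper26.DV
open Pool.Agent.Helper52.DV (cP Iz boxZ)

variable {m : ℕ} {w : Fin (m + 1) → ℕ}

/-- the polynomial `P (X + α)` -/
noncomputable def trl (α : Fin (m + 1) → ℂ) :
    MvPolynomial (Fin (m + 1)) ℂ →ₐ[ℂ] MvPolynomial (Fin (m + 1)) ℂ :=
  aeval fun i => X i + C (α i)

theorem eval_trl (α y : Fin (m + 1) → ℂ) (P : MvPolynomial (Fin (m + 1)) ℂ) :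
    eval y (trl α P) = eval (y + α) P := by
  unfold trl
  induction P using MvPolynomial.induction_on with
  | C a => simp
  | add p q hp hq => simp only [map_add, hp, hq]
  | mul_X p i hp => simp only [map_mul, hp, aeval_X, map_add, eval_X, eval_C, Pi.add_apply]

theorem coeff_mul_lin (p : MvPolynomial (Fin (m + 1)) ℂ) (i : Fin (m + 1)) (a : ℂ)
    (s : Fin (m + 1) →₀ ℕ) : coeff s (p * (X i + C a)) =
      (if i ∈ s.support then coeff (s - Finsupp.single i 1) p else 0) + a * coeff s p := by
  classical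
  rw [mul_add, coeff_add, coeff_mul_X', mul_comm p, coeff_C_mul]

theorem exists_pred {t : Fin (m + 1) →₀ ℕ} (ht : t ≠ 0) :
    ∃ i t', t = t' + Finsupp.single i 1 ∧ t.degree = t'.degree + 1 := by
  obtain ⟨i, hi⟩ := Finsupp.ne_iff.1 ht
  have hle : Finsupp.single i 1 ≤ t := by
    rw [Finsupp.single_le_iff]
    exact Nat.one_le_iff_ne_zero.2 hi
  have h1 : t = t - Finsupp.single i 1 + Finsupp.single i 1 := (tsub_add_cancel_of_le hle).symm
  refine ⟨i, t - Finsupp.single i 1, h1, ?_⟩
  conv_lhs => rw [h1]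
  rw [map_add, Finsupp.degree_single]

theorem trl_monomial_top (α : Fin (m + 1) → ℂ) (n : ℕ) : ∀ (t : Fin (m + 1) →₀ ℕ) (a : ℂ),
    t.degree = n → ∀ s : Fin (m + 1) →₀ ℕ, n ≤ s.degree →
      coeff s (trl α (monomial t a)) = if s = t then a else 0 := by
  classical
  induction n with
  | zero =>
    intro t a ht s _
    have h1 : t = 0 := by
      rwa [Finsupp.degree_eq_zero_iff] at ht
    subst h1
    have h2 : trl α (monomial 0 a) = C a := by
      change trl α (C a) = C a
      rw [trl, aeval_C]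
      rfl
    rw [h2, coeff_C]
    simp only [eq_comm]
  | succ n ih =>
    intro t a ht s hs
    have ht0 : t ≠ 0 := by
      rintro rfl
      rw [map_zero] at ht
      omega
    obtain ⟨i, t', rfl, hdeg⟩ := exists_pred ht0
    have ht' : t'.degree = n := by omega
    have h1 : monomial (t' + Finsupp.single i 1) a = monomial t' a * X i := by
      rw [X, monomial_mul, mul_one]
    rw [h1, map_mul]
    have h2 : trl α (X i) = X i + C (α i) := aeval_X _ _
    rw [h2, coeff_mul_lin, ih t' a ht' s (by omega), if_neg (c := s = t'), mul_zero, add_zero]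
    · by_cases hi : i ∈ s.support
      · rw [if_pos hi]
        have hle : Finsupp.single i 1 ≤ s := by
          rw [Finsupp.single_le_iff]
          exact Nat.one_le_iff_ne_zero.2 (Finsupp.mem_support_iff.1 hi)
        have h3 : s = s - Finsupp.single i 1 + Finsupp.single i 1 :=
          (tsub_add_cancel_of_le hle).symm
        have h4 : s.degree = (s - Finsupp.single i 1).degree + 1 := by
          conv_lhs => rw [h3]
          rw [map_add, Finsupp.degree_single]
        rw [ih t' a ht' _ (by omega)]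
        by_cases h5 : s = t' + Finsupp.single i 1
        · rw [if_pos h5, if_pos]
          rw [h5, add_tsub_cancel_right]
        · rw [if_neg h5, if_neg]
          intro h6
          exact h5 (by rw [h3, h6])
      · rw [if_neg hi, if_neg]
        rintro rfl
        apply hi
        rw [Finsupp.mem_support_iff, Finsupp.add_apply, Finsupp.single_eq_same]
        omega
    · rintro rfl
      omega

/-- A translation does not change the coefficients of the highest degree. -/
theorem trl_top (α : Fin (m + 1) → ℂ) {P : MvPolynomial (Fin (m + 1)) ℂ}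
    {s : Fin (m + 1) →₀ ℕ} (hP : P.totalDegree ≤ s.degree) :
    coeff s (trl α P) = coeff s P := by
  classical
  conv_lhs => rw [P.as_sum]
  rw [map_sum, coeff_sum]
  have h1 : ∀ t ∈ P.support, coeff s (trl α (monomial t (coeff t P))) =
      if s = t then coeff t P else 0 := fun t ht =>
    trl_monomial_top α _ t _ rfl s ((le_totalDegree ht).trans hP)
  rw [Finset.sum_congr rfl h1, Finset.sum_ite_eq]
  split_ifs with h
  · rfl
  · exact (notMem_support_iff.1 h).symm

theorem trl_monomial_le {α : Fin (m + 1) → ℂ} {A : ℝ} (hα : ∀ i, ‖α i‖ ≤ A) (hA : 0 ≤ A)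
    (n : ℕ) : ∀ (t : Fin (m + 1) →₀ ℕ) (a : ℂ), t.degree = n → ∀ s : Fin (m + 1) →₀ ℕ,
      ‖coeff s (trl α (monomial t a))‖ ≤ ‖a‖ * (1 + A) ^ n := by
  classical
  induction n with
  | zero =>
    intro t a ht s
    have h1 : t = 0 := by
      rwa [Finsupp.degree_eq_zero_iff] at ht
    subst h1
    have h2 : trl α (monomial 0 a) = C a := by
      change trl α (C a) = C a
      rw [trl, aeval_C]
      rfl
    rw [h2, coeff_C, pow_zero, mul_one]
    split_ifs
    · exact le_rfl
    · rw [norm_zero]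
      exact norm_nonneg _
  | succ n ih =>
    intro t a ht s
    have ht0 : t ≠ 0 := by
      rintro rfl
      rw [map_zero] at ht
      omega
    obtain ⟨i, t', rfl, hdeg⟩ := exists_pred ht0
    have ht' : t'.degree = n := by omega
    have h1 : monomial (t' + Finsupp.single i 1) a = monomial t' a * X i := by
      rw [X, monomial_mul, mul_one]
    rw [h1, map_mul]
    have h2 : trl α (X i) = X i + C (α i) := aeval_X _ _
    rw [h2, coeff_mul_lin]
    refine (norm_add_le _ _).trans ?_
    have h3 : ‖(if i ∈ s.support then coeff (s - Finsupp.single i 1) (trl α (monomial t' a))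
        else 0)‖ ≤ ‖a‖ * (1 + A) ^ n := by
      split_ifs
      · exact ih t' a ht' _
      · rw [norm_zero]
        positivity
    have h4 : ‖α i * coeff s (trl α (monomial t' a))‖ ≤ A * (‖a‖ * (1 + A) ^ n) := by
      rw [norm_mul]
      exact mul_le_mul (hα i) (ih t' a ht' s) (norm_nonneg _) hA
    calc _ ≤ ‖a‖ * (1 + A) ^ n + A * (‖a‖ * (1 + A) ^ n) := add_le_add h3 h4
      _ = ‖a‖ * (1 + A) ^ (n + 1) := by rw [pow_succ]; ring

/-- the coefficients of the conjugate of a map by a translation -/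
noncomputable def conj (α : Fin (m + 1) → ℂ) (c : VIdx m w → ℂ) : VIdx m w → ℂ := fun k =>
  coeff (k.2 : Fin (m + 1) →₀ ℕ) (trl α (vP c k.1) - C (α k.1))

theorem deg_trl (α : Fin (m + 1) → ℂ) (P : MvPolynomial (Fin (m + 1)) ℂ) :
    (trl α P).totalDegree ≤ P.totalDegree := by
  classical
  rw [trl, aeval_def, eval₂_eq']
  refine totalDegree_finsetSum_le fun s hs => ?_
  refine (totalDegree_mul _ _).trans ?_
  have h1 : (algebraMap ℂ (MvPolynomial (Fin (m + 1)) ℂ) (coeff s P)).totalDegree = 0 :=
    totalDegree_C _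
  rw [h1, zero_add]
  refine (totalDegree_finsetProd _ _).trans ?_
  calc ∑ i, ((X i + C (α i) : MvPolynomial (Fin (m + 1)) ℂ) ^ s i).totalDegree ≤ ∑ i, s i := by
        refine Finset.sum_le_sum fun i _ => (totalDegree_pow _ _).trans ?_
        refine (Nat.mul_le_mul_left _ ?_).trans_eq (mul_one _)
        refine (totalDegree_add _ _).trans (max_le ?_ ?_)
        · rw [totalDegree_X]
        · rw [totalDegree_C]
          exact Nat.zero_le _
    _ = s.degree := (Finsupp.degree_eq_sum s).symm
    _ ≤ P.totalDegree := le_totalDegree hs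

theorem deg_vP' (c : VIdx m w → ℂ) (i : Fin (m + 1)) : (vP c i).totalDegree ≤ w i := by
  classical
  rw [vP]
  refine totalDegree_finsetSum_le fun s _ => ?_
  refine (totalDegree_monomial_le _ _).trans ?_
  exact s.2

theorem vP_conj (α : Fin (m + 1) → ℂ) (c : VIdx m w → ℂ) :
    vP (conj α c) = fun i => trl α (vP c i) - C (α i) := by
  refine vP_coeff (fun i => trl α (vP c i) - C (α i)) fun i s hs => ?_
  by_contra h1
  apply hs
  refine (le_totalDegree (mem_support_iff.2 h1)).trans ?_
  refine (totalDegree_sub _ _).trans (max_le ((deg_trl α _).trans (deg_vP' c i)) ?_)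
  rw [totalDegree_C]
  exact Nat.zero_le _

theorem pm_conj (α : Fin (m + 1) → ℂ) (c : VIdx m w → ℂ) (y : Fin (m + 1) → ℂ) :
    pm (vP (conj α c)) y = pm (vP c) (y + α) - α := by
  rw [vP_conj]
  funext i
  rw [pm, map_sub, eval_trl, eval_C, Pi.sub_apply, pm]

theorem iter_conj (α : Fin (m + 1) → ℂ) (c : VIdx m w → ℂ) (n : ℕ) :
    (pm (vP (conj α c)))^[n] 0 = (pm (vP c))^[n] α - α := by
  induction n with
  | zero => simp
  | succ n ih =>
    rw [Function.iterate_succ_apply', Function.iterate_succ_apply', ih, pm_conj, sub_add_cancel]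

/-- the rank of a coefficient is its degree -/
noncomputable def rk (k : VIdx m w) : ℕ := (k.2 : Fin (m + 1) →₀ ℕ).degree

theorem conj_update (α : Fin (m + 1) → ℂ) (c c' : VIdx m w → ℂ) (k₁ k : VIdx m w)
    (hcc : ∀ j, j ≠ k₁ → c' j = c j) (hk : rk k₁ ≤ rk k) :
    conj α c' k - conj α c k = c' k - c k := by
  classical
  have h1 : conj α c' k - conj α c k =
      coeff (k.2 : Fin (m + 1) →₀ ℕ) (trl α (vP c' k.1 - vP c k.1)) := by
    rw [conj, conj, map_sub, coeff_sub, coeff_sub, coeff_sub]
    ring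
  rw [h1, trl_top, coeff_sub, coeff_vP, coeff_vP]
  refine Finset.sup_le fun s hs => ?_
  rw [mem_support_iff, coeff_sub] at hs
  have h2 : s.degree ≤ rk k₁ := by
    by_cases hsw : s.degree ≤ w k.1
    · have h3 := coeff_vP c' k.1 ⟨s, hsw⟩
      have h4 := coeff_vP c k.1 ⟨s, hsw⟩
      change coeff s (vP c' k.1) = _ at h3
      change coeff s (vP c k.1) = _ at h4
      rw [h3, h4] at hs
      by_cases h5 : (⟨k.1, ⟨s, hsw⟩⟩ : VIdx m w) = k₁
      · rw [← h5]
        exact le_rfl
      · exact absurd (sub_eq_zero.2 (hcc _ h5)) hs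
    · rw [coeff_vP_of_gt c' k.1 hsw, coeff_vP_of_gt c k.1 hsw, sub_zero] at hs
      exact absurd rfl hs
  exact h2.trans hk

theorem conj_top (α : Fin (m + 1) → ℂ) (c : VIdx m w → ℂ) (hd : 1 ≤ w (Fin.last m)) :
    conj α c (vsp m w) = c (vsp m w) := by
  classical
  have h2 : ((vsp m w).2 : Fin (m + 1) →₀ ℕ) =
      Finsupp.single (Fin.last m) (w (Fin.last m)) := rfl
  rw [conj, coeff_sub, trl_top, coeff_vP, coeff_C, if_neg, sub_zero]
  · intro h
    rw [h2] at h
    have h3 := DFunLike.congr_fun h (Fin.last m)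
    rw [Finsupp.single_eq_same] at h3
    have h4 : (0 : Fin (m + 1) →₀ ℕ) (Fin.last m) = 0 := rfl
    omega
  · rw [h2, Finsupp.degree_single]
    exact deg_vP' c (Fin.last m)

/-- The conjugations are triangular. -/
theorem tri_conj [DecidableEq (VIdx m w)] (α : Fin (m + 1) → ℂ) :
    Tri rk fun c : VIdx m w → ℤ => conj α fun k => (c k : ℂ) where
  ne c k₁ u k hk hrk := by
    have h := conj_update α (fun k => (c k : ℂ)) (fun k => ((Function.update c k₁ u k : ℤ) : ℂ))
      k₁ k (fun j hj => by rw [Function.update_of_ne hj]) hrk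
    rw [Function.update_of_ne hk, sub_self] at h
    exact sub_eq_zero.1 h
  eq c k₁ u := by
    have h := conj_update α (fun k => (c k : ℂ)) (fun k => ((Function.update c k₁ u k : ℤ) : ℂ))
      k₁ k₁ (fun j hj => by rw [Function.update_of_ne hj]) le_rfl
    rw [Function.update_self] at h
    rw [← h]
    ring

/-- The coefficients of the conjugate are not much larger. -/
theorem conj_le {α : Fin (m + 1) → ℂ} {A : ℝ} (hα : ∀ i, ‖α i‖ ≤ A) (hA : 0 ≤ A)
    {c : VIdx m w → ℂ} {B : ℝ} (hc : ∀ k, ‖c k‖ ≤ B) {d : ℕ} (hd : ∀ i, w i ≤ d)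
    (k : VIdx m w) : ‖conj α c k‖ ≤ Fintype.card (VIdx m w) * (B * (1 + A) ^ d) + A := by
  classical
  have hB : 0 ≤ B := (norm_nonneg _).trans (hc k)
  have hA1 : (1 : ℝ) ≤ 1 + A := by linarith
  rw [conj, coeff_sub, vP, map_sum, coeff_sum]
  refine (norm_sub_le _ _).trans (add_le_add ?_ ?_)
  · refine (norm_sum_le _ _).trans ?_
    calc ∑ s : {s : Fin (m + 1) →₀ ℕ // s.degree ≤ w k.1},
          ‖coeff (k.2 : Fin (m + 1) →₀ ℕ) (trl α (monomial s.1 (c ⟨k.1, s⟩)))‖
        ≤ ∑ s : {s : Fin (m + 1) →₀ ℕ // s.degree ≤ w k.1}, B * (1 + A) ^ d := by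
          refine Finset.sum_le_sum fun s _ => ?_
          refine (trl_monomial_le hα hA _ s.1 _ rfl _).trans ?_
          exact mul_le_mul (hc _) (pow_le_pow_right₀ hA1 (s.2.trans (hd _))) (by positivity) hB
      _ = Fintype.card {s : Fin (m + 1) →₀ ℕ // s.degree ≤ w k.1} * (B * (1 + A) ^ d) := by
          rw [Finset.sum_const, nsmul_eq_mul, Finset.card_univ]
      _ ≤ _ := by
          refine mul_le_mul_of_nonneg_right ?_ (by positivity)
          exact_mod_cast Fintype.card_le_of_injective
            (fun s : {s : Fin (m + 1) →₀ ℕ // s.degree ≤ w k.1} => (⟨k.1, s⟩ : VIdx m w))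
            fun a b h => eq_of_heq (Sigma.mk.inj_iff.1 h).2
  · rw [coeff_C]
    split_ifs
    · exact hα _
    · rw [norm_zero]
      exact hA

end Pool.Agent.Helper52.SB
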