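import Pool.Agent.Helper52.DV.ZMain
import Pool.Agent.Helper52.SB.Core
import Pool.Agent.Helper52.SB.Trans
import Pool.Agent.Helper52.SB.Esc

/-!
# The optimal bound for one hundred percent of the integral maps
-/

set_option autoImplicit false

namespace Pool.Agent.Helper52.SB

open MvPolynomial
open Pool.Agent.Helper86.MQ (pm)
open Pool.Agent.Helper86.RR (eval_le)
open Pool.Agent.Helper86.GT (Es)
open Pool.Agent.Helper26.DV
open Pool.Agent.Helper52.DV

variable {m : ℕ} {w : Fin (m + 1) → ℕ}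

/-- the number of monomials -/
theorem nm_eq (m D : ℕ) : nm m D = (m + 1 + D).choose (m + 1) := by
  classical
  have h1 : nm m D = ((Finset.range (D + 1)).biUnion fun n =>
      (Finset.univ : Finset (Fin (m + 1))).finsuppAntidiag n).card := by
    rw [nm]
    refine Fintype.card_of_subtype _ fun s => ?_
    rw [Finset.mem_biUnion]
    constructor
    · rintro ⟨n, hn, hs⟩
      rw [Finset.mem_finsuppAntidiag] at hs
      rw [Finsupp.degree_eq_sum]
      have h2 : ∑ i, s i = n := hs.1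
      have := Finset.mem_range.1 hn
      omega
    · intro hs
      refine ⟨s.degree, Finset.mem_range.2 (Nat.lt_succ_of_le hs), ?_⟩
      rw [Finset.mem_finsuppAntidiag]
      refine ⟨?_, Finset.subset_univ _⟩
      rw [Finsupp.degree_eq_sum]
  rw [h1, Finset.card_biUnion]
  · have h2 : ∀ n ∈ Finset.range (D + 1), ((Finset.univ : Finset (Fin (m + 1))).finsuppAntidiag
        n).card = (m + 1).multichoose n := by
      intro n _
      rw [Finset.card_finsuppAntidiag_nat_eq_multichoose, Finset.card_univ, Fintype.card_fin]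
    rw [Finset.sum_congr rfl h2, Nat.sum_range_multichoose, add_comm D]
  · intro n _ n' _ hne
    rw [Function.onFun, Finset.disjoint_left]
    intro s hs hs'
    rw [Finset.mem_finsuppAntidiag] at hs hs'
    exact hne (hs.1.symm.trans hs'.1)

/-- the core with polynomials in the coefficients -/
theorem core' (hw : ∀ i : Fin m, 1 ≤ w i.castSucc)
    (hw' : ∀ i : Fin m, w i.castSucc < w (Fin.last m)) (h0 : 1 ≤ w (Fin.last m)) (D : ℕ) :
    ∃ L : Finset (MvPolynomial (VIdx m w) ℤ), (∀ l ∈ L, l ≠ 0) ∧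
    ∀ (B : ℝ) (c : VIdx m w → ℂ) (x : ℕ → Fin (m + 1) → ℂ),
      Orc nC B c x → x 0 = (pm (vP c))^[2] 0 → (∀ l ∈ L, 1 ≤ ‖aeval c l‖ * B) →
      ∀ F : MvPolynomial (Fin (m + 1)) ℂ, F ≠ 0 → F.totalDegree ≤ D →
        {n | eval ((pm (vP c))^[n] 0) F = 0}.encard < nm m D := by
  classical
  obtain ⟨L, hL, h⟩ := core (K := ℂ) hw hw' h0 D
  have h1 : ∀ l : RR m w, ∃ l' : MvPolynomial (VIdx m w) ℤ, l ∈ L →
      rename Sum.inl l' = l := by
    intro l
    by_cases hl : l ∈ L
    · have h2 := (hL l hl).1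
      rw [mem_supported] at h2
      obtain ⟨q, hq⟩ := exists_rename_eq_of_vars_subset_range l
        (Sum.inl : VIdx m w → VIdx m w ⊕ (ℕ × Fin (m + 1))) Sum.inl_injective (by
          intro u hu
          have h3 := h2 hu
          rcases u with u | u
          · exact ⟨u, rfl⟩
          · have := h3 u rfl
            omega)
      exact ⟨q, fun _ => hq⟩
    · exact ⟨0, fun h => absurd h hl⟩
  choose r hr using h1
  refine ⟨L.image r, ?_, ?_⟩
  · intro l hl
    obtain ⟨l', hl', rfl⟩ := Finset.mem_image.1 hl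
    intro h2
    apply (hL l' hl').2
    rw [← hr l' hl', h2, map_zero]
  · intro B c x hx hx0 hl F hF hFD
    refine h nC B c x hx (fun a => ?_) hx0 (fun l hlL => ?_) F hF hFD
    · exact (Complex.norm_intCast a).le
    · have h2 := hl (r l) (Finset.mem_image.2 ⟨l, hlL, rfl⟩)
      have h3 : ev c (fun _ => 0) l = aeval c (r l) := by
        conv_lhs => rw [← hr l hlL]
        rw [ev, coe_eval₂Hom, eval₂_rename]
        rfl
      rw [h3]
      exact h2

/-- sums of coefficients -/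
theorem sum_le' {c : VIdx m w → ℂ} {B : ℝ} (hc : ∀ k, ‖c k‖ ≤ B) (hB : 0 ≤ B)
    (i : Fin (m + 1)) :
    ∑ s ∈ (vP c i).support, nC (coeff s (vP c i)) ≤ Fintype.card (VIdx m w) * B := by
  classical
  have h1 : ∑ s ∈ (vP c i).support, nC (coeff s (vP c i)) ≤
      ∑ s : {s : Fin (m + 1) →₀ ℕ // s.degree ≤ w i}, nC (c ⟨i, s⟩) := by
    have h2 : (vP c i).support ⊆ Finset.univ.image
        (fun s : {s : Fin (m + 1) →₀ ℕ // s.degree ≤ w i} => (s : Fin (m + 1) →₀ ℕ)) := by
      intro s hs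
      rw [Finset.mem_image]
      refine ⟨⟨s, (le_totalDegree hs).trans (deg_vP' c i)⟩, Finset.mem_univ _, rfl⟩
    refine (Finset.sum_le_sum_of_subset_of_nonneg h2 fun s _ _ => nC.nonneg _).trans ?_
    rw [Finset.sum_image fun a _ b _ h => Subtype.ext h]
    refine Finset.sum_le_sum fun s _ => ?_
    rw [coeff_vP]
  refine h1.trans ?_
  calc ∑ s : {s : Fin (m + 1) →₀ ℕ // s.degree ≤ w i}, nC (c ⟨i, s⟩)
      ≤ ∑ s : {s : Fin (m + 1) →₀ ℕ // s.degree ≤ w i}, B :=
        Finset.sum_le_sum fun s _ => hc _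
    _ = Fintype.card {s : Fin (m + 1) →₀ ℕ // s.degree ≤ w i} * B := by
        rw [Finset.sum_const, nsmul_eq_mul, Finset.card_univ]
    _ ≤ Fintype.card (VIdx m w) * B := by
        refine mul_le_mul_of_nonneg_right ?_ hB
        exact_mod_cast Fintype.card_le_of_injective
          (fun s : {s : Fin (m + 1) →₀ ℕ // s.degree ≤ w i} => (⟨i, s⟩ : VIdx m w))
          fun a b h => eq_of_heq (Sigma.mk.inj_iff.1 h).2

/-- The orbit of the origin under the conjugate of the map is an escaping orbit. -/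
theorem orc_conj (hw' : ∀ i : Fin m, w i.castSucc < w (Fin.last m)) (hd : 2 ≤ w (Fin.last m))
    {n ε1 B A ρ t M Λ1 Λ2 : ℝ} (hn : n = Fintype.card (VIdx m w)) (hε1 : 0 < ε1) (hB : 1 ≤ B)
    (hεB : 2 ≤ ε1 * B) (hA : 1 ≤ A) (ht : t = (1 + A) ^ w (Fin.last m))
    (hM : M = 2 * n ^ 2 * B * t) (hΛ1 : Λ1 = 1 + 4 * n ^ 2 / ε1)
    (hΛ2 : Λ2 = Λ1 + 4 + Λ1 * (4 * n ^ 2 / ε1)) (hBΛ : Λ2 ≤ B)
    (hQ : 2 * Λ1 * t * M ^ w (Fin.last m) ≤ ε1 * B * ρ ^ w (Fin.last m)) (hρ0 : 0 ≤ ρ)
    {c : VIdx m w → ℂ} (hc : ∀ k, ‖c k‖ ≤ B) (ha : ε1 * B ≤ ‖c (vsp m w)‖)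
    {α : Fin (m + 1) → ℂ} (hα : ∀ i, ‖α i‖ ≤ A)
    (h3 : ‖c (vsp m w)‖ * ρ ^ w (Fin.last m) ≤ ‖(pm (vP c))^[2] α (Fin.last m)‖) :
    Orc nC (2 * M) (conj α c) fun k => (pm (vP (conj α c)))^[k] ((pm (vP (conj α c)))^[2] 0) := by
  classical
  set d := w (Fin.last m) with hddef
  have hn1 : 1 ≤ n := by
    rw [hn]
    exact_mod_cast Fintype.card_pos_iff.2 ⟨vsp m w⟩
  have hB0 : 0 < B := by linarith
  have hA0 : 0 ≤ A := by linarith
  have ht1 : 1 ≤ t := by
    rw [ht]
    exact one_le_pow₀ (by linarith)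
  have hAt : A ≤ t := by
    rw [ht]
    calc A ≤ 1 + A := by linarith
      _ ≤ (1 + A) ^ d := le_self_pow₀ (by linarith) (by omega)
  have hn2 : 1 ≤ n ^ 2 := one_le_pow₀ hn1
  have hnn : n ≤ n ^ 2 := le_self_pow₀ hn1 (by norm_num)
  have hBt : 1 ≤ B * t := one_le_mul_of_one_le_of_one_le hB ht1
  have hM1 : B * t ≤ M := by
    rw [hM]
    nlinarith
  have hM2 : 2 ≤ M := by
    rw [hM]
    nlinarith
  have hM0 : 0 < M := by linarith
  set B' : ℝ := 2 * n * B * t with hB'
  have hB'0 : 0 ≤ B' := by positivity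
  have hMB : n * B' = M := by rw [hM, hB']; ring
  have hcc : ∀ k, ‖conj α c k‖ ≤ B' := by
    intro k
    have h4 := conj_le hα hA0 hc (d := d)
      (fun i => Fin.lastCases le_rfl (fun i => (hw' i).le) i) k
    rw [← hn, ← ht] at h4
    refine h4.trans ?_
    have h5 : A ≤ n * (B * t) := by
      calc A ≤ t := hAt
        _ = 1 * (1 * t) := by ring
        _ ≤ n * (B * t) := by
            refine mul_le_mul hn1 (mul_le_mul_of_nonneg_right hB (by linarith)) (by linarith)
              (by linarith)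
    rw [hB']
    linarith
  have htop : conj α c (vsp m w) = c (vsp m w) := conj_top α c (by omega)
  have hsum : ∀ i, ∑ s ∈ (vP (conj α c) i).support, nC (coeff s (vP (conj α c) i)) ≤ M := by
    intro i
    refine (sum_le' hcc hB'0 i).trans_eq ?_
    rw [← hn, hMB]
  set a := ‖c (vsp m w)‖ with hadef
  have ha2 : 2 ≤ a := hεB.trans ha
  have ha0 : 0 < a := by linarith
  have hMa : 2 * M / a ≤ 4 * n ^ 2 / ε1 * t := by
    rw [div_le_iff₀ ha0]
    have h4 : 4 * n ^ 2 / ε1 * t * a ≥ 4 * n ^ 2 / ε1 * t * (ε1 * B) :=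
      mul_le_mul_of_nonneg_left ha (by positivity)
    have h5 : 4 * n ^ 2 / ε1 * t * (ε1 * B) = 2 * M := by
      rw [hM]
      field_simp
      ring
    linarith
  set x' : ℝ := 4 * n ^ 2 / ε1 with hx'
  have hx'0 : 0 ≤ x' := by positivity
  have hΛ11 : 1 ≤ Λ1 := by rw [hΛ1]; linarith
  set lam := 1 + 2 * M / a with hlam
  have hlam1 : lam ≤ Λ1 * t := by
    rw [hlam, hΛ1]
    nlinarith
  have hlam0 : 1 ≤ lam := by
    have : 0 ≤ 2 * M / a := by positivity
    rw [hlam]
    linarith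
  set R₀ := lam + 4 / a + 2 * lam * M / a with hR₀
  have hR₀1 : R₀ ≤ Λ2 * t ^ 2 := by
    have h4 : 4 / a ≤ 4 := div_le_self (by norm_num) (by linarith)
    have h5 : 2 * lam * M / a = lam * (2 * M / a) := by ring
    have h6 : lam * (2 * M / a) ≤ (Λ1 * t) * (x' * t) :=
      mul_le_mul hlam1 hMa (by positivity) (by positivity)
    have h7 : t ≤ t ^ 2 := le_self_pow₀ ht1 (by norm_num)
    have h8 : 1 ≤ t ^ 2 := one_le_pow₀ ht1
    have h9 : Λ1 * t ≤ Λ1 * t ^ 2 := mul_le_mul_of_nonneg_left h7 (by linarith)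
    rw [hR₀, h5, hΛ2]
    nlinarith
  have hMd : M ≤ M ^ d := le_self_pow₀ (by linarith) (by omega)
  have hMd2 : M ^ 2 ≤ M ^ d := pow_le_pow_right₀ (by linarith) hd
  -- the first two points
  have hdeg := deg_vP' (conj α c)
  have hx1 : ∀ i, nC (pm (vP (conj α c)) 0 i) ≤ M := by
    intro i
    have h4 := (eval_le nC (hdeg i) (0 : Fin (m + 1) → ℂ) 1 le_rfl (fun j => by
      rw [Pi.zero_apply, map_zero]
      exact zero_le_one))
    rw [one_pow, mul_one] at h4
    exact h4.trans (hsum i)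
  have hx2 : ∀ i : Fin m, nC ((pm (vP (conj α c)))^[2] 0 i.castSucc) ≤ M ^ d := by
    intro i
    rw [Function.iterate_succ_apply', Function.iterate_one, pm]
    refine (eval_le nC (hdeg _) (pm (vP (conj α c)) 0) M (by linarith) hx1).trans ?_
    calc _ ≤ M * M ^ (d - 1) := by
          refine mul_le_mul (hsum _) (pow_le_pow_right₀ (by linarith) ?_) (by positivity)
            (by positivity)
          have := hw' i
          omega
      _ = M ^ d := by
          rw [← pow_succ']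
          congr 1
          omega
  have hlast : 2 * Λ1 * t * M ^ d - A ≤ nC ((pm (vP (conj α c)))^[2] 0 (Fin.last m)) := by
    rw [iter_conj, Pi.sub_apply]
    have h4 : ε1 * B * ρ ^ d ≤ a * ρ ^ d := mul_le_mul_of_nonneg_right ha (pow_nonneg hρ0 _)
    have h5 : ‖(pm (vP c))^[2] α (Fin.last m)‖ - ‖α (Fin.last m)‖ ≤
        ‖(pm (vP c))^[2] α (Fin.last m) - α (Fin.last m)‖ := norm_sub_norm_le _ _
    have h6 := hα (Fin.last m)
    change _ ≤ ‖(pm (vP c))^[2] α (Fin.last m) - α (Fin.last m)‖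
    linarith
  have hΛt : 1 ≤ Λ1 * t := one_le_mul_of_one_le_of_one_le hΛ11 ht1
  have hMd0 : 0 ≤ M ^ d := by positivity
  have hmain : Λ1 * t * M ^ d ≤ nC ((pm (vP (conj α c)))^[2] 0 (Fin.last m)) := by
    refine le_trans ?_ hlast
    have h4 : A ≤ M ^ d := by
      refine hAt.trans (le_trans ?_ (hM1.trans hMd))
      exact le_mul_of_one_le_left (by linarith) hB
    have h5 : M ^ d ≤ Λ1 * t * M ^ d := le_mul_of_one_le_left hMd0 hΛt
    linarith
  refine orc_of nC hw' hd (by linarith) (fun k => ?_) hsum ?_ ?_ ?_ (lam := lam) (R₀ := R₀)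
    ⟨?_, fun i => ?_⟩ ?_
  · refine (hcc k).trans ?_
    have : B' ≤ n * B' := le_mul_of_one_le_left hB'0 hn1
    linarith
  · rw [htop]
    exact ha2
  · rw [htop]
    exact le_rfl
  · rw [htop]
    exact le_rfl
  · refine le_trans ?_ hmain
    refine hR₀1.trans ?_
    calc Λ2 * t ^ 2 ≤ B * t ^ 2 := mul_le_mul_of_nonneg_right hBΛ (by positivity)
      _ ≤ (B * t) ^ 2 := by
          rw [mul_pow]
          exact mul_le_mul_of_nonneg_right (le_self_pow₀ hB (by norm_num)) (by positivity)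
      _ ≤ M ^ 2 := pow_le_pow_left₀ (by positivity) hM1 2
      _ ≤ M ^ d := hMd2
      _ ≤ Λ1 * t * M ^ d := le_mul_of_one_le_left hMd0 hΛt
  · refine le_trans ?_ hmain
    exact mul_le_mul hlam1 (hx2 i) (nC.nonneg _) (by positivity)
  · refine le_trans ?_ hmain
    calc 2 * M ≤ M ^ 2 := by nlinarith
      _ ≤ M ^ d := hMd2
      _ ≤ Λ1 * t * M ^ d := le_mul_of_one_le_left hMd0 hΛt

end Pool.Agent.Helper52.SB
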